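import Pool.Agent.Lib.MP_0430e4_lc.Rand.Lower
import Pool.Agent.Lib.MP_0430e4_lc.TensorEntropy

/-!
Asymptotic parameters.
-/

set_option autoImplicit false

namespace Pool.Agent.Lib.MP_0430e4_lc.Rand

open Finset Filter Topology

/-- even distance just below `δ n` -/
noncomputable def ii (δ : ℝ) (n : ℕ) : ℕ := 2 * ((⌈δ * n⌉₊ - 1) / 2)

lemma ii_even (δ : ℝ) (n : ℕ) : Even (ii δ n) := even_two_mul _

lemma ii_le {δ : ℝ} (n : ℕ) : ii δ n ≤ ⌈δ * n⌉₊ - 1 := by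
  unfold ii
  omega

lemma ii_ge {δ : ℝ} (n : ℕ) : ⌈δ * n⌉₊ ≤ ii δ n + 2 := by
  unfold ii
  omega

lemma ii_le_real {δ : ℝ} (hδ : 0 < δ) {n : ℕ} (hn : 0 < n) : (ii δ n : ℝ) ≤ δ * n := by
  have hn' : (0 : ℝ) < n := by exact_mod_cast hn
  have h1 : 0 < δ * n := by positivity
  have h2 : 0 < ⌈δ * n⌉₊ := Nat.ceil_pos.mpr h1
  have h3 : ii δ n + 1 ≤ ⌈δ * n⌉₊ := by
    have := ii_le (δ := δ) n
    omega
  have h4 : ((ii δ n : ℝ) + 1) ≤ (⌈δ * n⌉₊ : ℝ) := by exact_mod_cast h3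
  have h5 := Nat.ceil_lt_add_one h1.le
  linarith

lemma ii_ge_real {δ : ℝ} (n : ℕ) : δ * n - 2 ≤ (ii δ n : ℝ) := by
  have h1 := ii_ge (δ := δ) n
  have h2 : ((⌈δ * n⌉₊ : ℕ) : ℝ) ≤ (ii δ n : ℝ) + 2 := by exact_mod_cast h1
  have h3 := Nat.le_ceil (δ * n)
  linarith

lemma tendsto_ii {δ : ℝ} (hδ : 0 < δ) :
    Tendsto (fun n : ℕ => (ii δ n : ℝ) / n) atTop (𝓝 δ) := by
  have h1 : Tendsto (fun n : ℕ => δ - 2 / (n : ℝ)) atTop (𝓝 (δ - 0)) := by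
    apply Tendsto.sub tendsto_const_nhds
    exact tendsto_const_div_atTop_nhds_zero_nat 2
  rw [sub_zero] at h1
  apply tendsto_of_tendsto_of_tendsto_of_le_of_le' h1 (tendsto_const_nhds (x := δ))
  · filter_upwards [eventually_gt_atTop 0] with n hn
    have hn' : (0 : ℝ) < n := by exact_mod_cast hn
    rw [le_div_iff₀ hn', sub_mul, div_mul_cancel₀ _ hn'.ne']
    exact ii_ge_real n
  · filter_upwards [eventually_gt_atTop 0] with n hn
    have hn' : (0 : ℝ) < n := by exact_mod_cast hn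
    rw [div_le_iff₀ hn']
    exact ii_le_real hδ hn

lemma tendsto_floor {ξ : ℝ} (hξ : 0 ≤ ξ) :
    Tendsto (fun n : ℕ => (⌊ξ * n⌋₊ : ℝ) / n) atTop (𝓝 ξ) :=
  (tendsto_nat_floor_mul_div_atTop hξ).comp tendsto_natCast_atTop_atTop

lemma tendsto_log_div : Tendsto (fun n : ℕ => Real.log (n + 1) / (n : ℝ)) atTop (𝓝 0) := by
  have h1 : Tendsto (fun n : ℕ => Real.log ((n : ℝ) + 1) / ((n : ℝ) + 1)) atTop (𝓝 0) := by
    have h2 : Tendsto (fun x : ℝ => Real.log x / x) atTop (𝓝 0) := by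
      have := Real.isLittleO_log_id_atTop.tendsto_div_nhds_zero
      exact this
    exact h2.comp (tendsto_atTop_add_const_right _ _ tendsto_natCast_atTop_atTop)
  have h3 : Tendsto (fun n : ℕ => 1 + 1 / (n : ℝ)) atTop (𝓝 (1 + 0)) :=
    tendsto_const_nhds.add (tendsto_const_div_atTop_nhds_zero_nat 1)
  have h4 := h1.mul h3
  rw [zero_mul] at h4
  refine h4.congr' ?_
  filter_upwards [eventually_gt_atTop 0] with n hn
  have hn' : (0 : ℝ) < n := by exact_mod_cast hn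
  field_simp

lemma choose_lower {a : ℝ} (ha0 : 0 < a) (ha1 : a < 1) {w : ℕ → ℕ}
    (hw : Tendsto (fun n : ℕ => (w n : ℝ) / n) atTop (𝓝 a)) {η : ℝ} (hη : 0 < η) :
    ∀ᶠ n : ℕ in atTop, Real.exp ((Real.binEntropy a - η) * n) ≤ (n.choose (w n) : ℝ) := by
  have h1 : Tendsto (fun n : ℕ => Real.binEntropy ((w n : ℝ) / n)) atTop (𝓝 (Real.binEntropy a)) :=
    (Real.binEntropy_continuous.tendsto a).comp hw
  have h2 := h1.eventually (lt_mem_nhds (show Real.binEntropy a - η / 2 < Real.binEntropy a by linarith))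
  have h3 := tendsto_log_div.eventually (gt_mem_nhds (show (0 : ℝ) < η / 2 by positivity))
  have h4 := hw.eventually (lt_mem_nhds ha0)
  have h5 := hw.eventually (gt_mem_nhds ha1)
  filter_upwards [h2, h3, h4, h5, eventually_gt_atTop 0] with n h2 h3 h4 h5 hn
  have hn' : (0 : ℝ) < n := by exact_mod_cast hn
  have hw0 : 0 < w n := by
    rw [lt_div_iff₀ hn', zero_mul] at h4
    exact_mod_cast h4
  have hw1 : w n < n := by
    rw [div_lt_one hn'] at h5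
    exact_mod_cast h5
  have h6 := Tensor.entropy_le_log_choose hw0 hw1
  rw [div_lt_iff₀ hn'] at h3
  have hc : (0 : ℝ) < n.choose (w n) := by exact_mod_cast Nat.choose_pos hw1.le
  rw [← Real.le_log_iff_exp_le hc]
  nlinarith

/-- bound of the second kind: first MRRW exponent in natural units -/
noncomputable def mr (δ : ℝ) : ℝ := Real.binEntropy (1 / 2 - Real.sqrt (δ * (1 - δ)))

lemma sqrt_lt_half {δ : ℝ} (h0 : 0 < δ) (h1 : δ < 1 / 2) : Real.sqrt (δ * (1 - δ)) < 1 / 2 := by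
  rw [show (1 / 2 : ℝ) = Real.sqrt (1 / 4) by
    rw [show (1 / 4 : ℝ) = (1 / 2) ^ 2 by norm_num, Real.sqrt_sq (by norm_num)]]
  apply Real.sqrt_lt_sqrt
  · nlinarith
  · nlinarith [sq_nonneg (δ - 1 / 2), sq_pos_of_pos (show (0 : ℝ) < 1 / 2 - δ by linarith)]

lemma exists_xi {δ : ℝ} (h0 : 0 < δ) (h1 : δ < 1 / 2) {η : ℝ} (hη : 0 < η) :
    ∃ ξ : ℝ, 0 < ξ ∧ ξ < 1 / 2 - Real.sqrt (δ * (1 - δ)) ∧ mr δ - η < Real.binEntropy ξ := by
  set x0 := 1 / 2 - Real.sqrt (δ * (1 - δ)) with hx0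
  have hx0pos : 0 < x0 := by
    have := sqrt_lt_half h0 h1
    linarith
  have hc : ContinuousAt Real.binEntropy x0 := Real.binEntropy_continuous.continuousAt
  have h2 : ∀ᶠ x in 𝓝 x0, mr δ - η < Real.binEntropy x := by
    apply hc.eventually (lt_mem_nhds _)
    unfold mr
    linarith
  have h3 : ∀ᶠ x in 𝓝[<] x0, mr δ - η < Real.binEntropy x := h2.filter_mono nhdsWithin_le_nhds
  have h4 : ∀ᶠ x in 𝓝[<] x0, 0 < x :=
    (lt_mem_nhds hx0pos).filter_mono nhdsWithin_le_nhds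
  have h5 : ∀ᶠ x in 𝓝[<] x0, x < x0 := self_mem_nhdsWithin
  obtain ⟨x, hx⟩ := (h3.and (h4.and h5)).exists
  exact ⟨x, hx.2.1, hx.2.2, hx.1⟩

/-- all parameters of the finite theorem -/
lemma params {δ : ℝ} (h0 : 0 < δ) (h1 : δ < 1 / 2) {η : ℝ} (hη : 0 < η) :
    ∀ᶠ n : ℕ in atTop, ∃ j0 : ℕ, 0 < ii δ n ∧ ii δ n < ⌈δ * n⌉₊ ∧ 2 * ii δ n ≤ n + 1 ∧
      2 * j0 ≤ n ∧ 4 * ((ii δ n : ℝ) * (n + 1 - ii δ n)) ≤ ((n : ℝ) - 2 * j0) ^ 2 ∧
      Real.exp ((Real.binEntropy δ - η) * n) ≤ (n.choose (ii δ n) : ℝ) ∧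
      Real.exp ((mr δ - η) * n) ≤ (n.choose j0 : ℝ) ∧ ii δ n ≤ n ∧ j0 ≤ n := by
  obtain ⟨ξ, hξ0, hξ1, hξ2⟩ := exists_xi h0 h1 (η := η / 2) (by positivity)
  have hs0 : 0 ≤ Real.sqrt (δ * (1 - δ)) := Real.sqrt_nonneg _
  have hξh : ξ < 1 / 2 := by linarith
  have hgap : 4 * (δ * (1 - δ)) < (1 - 2 * ξ) ^ 2 := by
    have h2 : 2 * Real.sqrt (δ * (1 - δ)) < 1 - 2 * ξ := by linarith
    have h3 : (2 * Real.sqrt (δ * (1 - δ))) ^ 2 < (1 - 2 * ξ) ^ 2 := by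
      apply pow_lt_pow_left₀ h2 (by positivity) (by norm_num)
    rw [mul_pow, Real.sq_sqrt (by nlinarith)] at h3
    linarith
  have e1 := choose_lower h0 (by linarith) (tendsto_ii h0) hη
  have e2 := choose_lower hξ0 (by linarith) (tendsto_floor hξ0.le) (η := η / 2) (by positivity)
  have e3 : ∀ᶠ n : ℕ in atTop, (3 : ℝ) / δ < n := by
    exact tendsto_natCast_atTop_atTop.eventually (eventually_gt_atTop _)
  have e4 : ∀ᶠ n : ℕ in atTop, 4 * δ / ((1 - 2 * ξ) ^ 2 - 4 * (δ * (1 - δ))) < (n : ℝ) :=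
    tendsto_natCast_atTop_atTop.eventually (eventually_gt_atTop _)
  filter_upwards [e1, e2, e3, e4, eventually_gt_atTop 0] with n e1 e2 e3 e4 hn
  have hn' : (0 : ℝ) < n := by exact_mod_cast hn
  have hile := ii_le_real h0 hn
  have hige := ii_ge_real (δ := δ) n
  rw [div_lt_iff₀ h0] at e3
  have hipos : 0 < ii δ n := by
    have : (0 : ℝ) < ii δ n := by nlinarith
    exact_mod_cast this
  have hceil : 0 < ⌈δ * n⌉₊ := Nat.ceil_pos.mpr (by positivity)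
  have h2i : 2 * ii δ n ≤ n := by
    have : (2 : ℝ) * ii δ n ≤ n := by nlinarith
    exact_mod_cast this
  have hj0 : (⌊ξ * n⌋₊ : ℝ) ≤ ξ * n := Nat.floor_le (by positivity)
  have h2j : 2 * ⌊ξ * n⌋₊ ≤ n := by
    have : (2 : ℝ) * ⌊ξ * n⌋₊ ≤ n := by nlinarith
    exact_mod_cast this
  refine ⟨⌊ξ * n⌋₊, hipos, ?_, by omega, h2j, ?_, e1, ?_, by omega, by omega⟩
  · have := ii_le (δ := δ) n
    omega
  · -- the gap condition
    have a1 : (ii δ n : ℝ) * (n + 1 - ii δ n) ≤ δ * n * (n + 1 - δ * n) := by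
      have hi0 : (0 : ℝ) ≤ ii δ n := Nat.cast_nonneg _
      have h2i' : (2 : ℝ) * ii δ n ≤ n := by exact_mod_cast h2i
      have h2d : 2 * (δ * n) ≤ n := by nlinarith
      nlinarith
    have a2 : 4 * (δ * n * (n + 1 - δ * n)) ≤ ((1 - 2 * ξ) * n) ^ 2 := by
      rw [div_lt_iff₀ (by linarith)] at e4
      have : 4 * δ * n ≤ ((1 - 2 * ξ) ^ 2 - 4 * (δ * (1 - δ))) * n * n := by nlinarith
      nlinarith
    have a3 : (1 - 2 * ξ) * n ≤ (n : ℝ) - 2 * ⌊ξ * n⌋₊ := by linarith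
    have a4 : ((1 - 2 * ξ) * n) ^ 2 ≤ ((n : ℝ) - 2 * ⌊ξ * n⌋₊) ^ 2 := by
      apply pow_le_pow_left₀ _ a3
      have : 0 < 1 - 2 * ξ := by linarith
      positivity
    linarith
  · refine le_trans ?_ e2
    apply Real.exp_le_exp.mpr
    have : mr δ - η ≤ Real.binEntropy ξ - η / 2 := by linarith
    nlinarith

end Pool.Agent.Lib.MP_0430e4_lc.Rand
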