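import Mathlib

/-!
Kleitman-Winston counting of independent sets, in the form of a bound for the number of
independent sets of given size in a finite relation.
-/

set_option autoImplicit false

namespace Pool.Agent.Lib.MP_0430e4_lc.Rand

open Finset

section
variable {V : Type*} [DecidableEq V] (adj : V → V → Prop) [DecidableRel adj]

/-- independent sets of size `m` inside `U` -/
noncomputable def indep (U : Finset V) (m : ℕ) : Finset (Finset V) :=
  @Finset.filter _ (fun I => ∀ x ∈ I, ∀ y ∈ I, x ≠ y → ¬ adj x y) (Classical.decPred _)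
    (U.powersetCard m)

lemma mem_indep {U I : Finset V} {m : ℕ} :
    I ∈ indep adj U m ↔ (I ⊆ U ∧ I.card = m) ∧ ∀ x ∈ I, ∀ y ∈ I, x ≠ y → ¬ adj x y := by
  unfold indep
  rw [@Finset.mem_filter _ _ (Classical.decPred _), Finset.mem_powersetCard]

/-- the binomial sum of the Kleitman-Winston bound -/
def bb (R u k m : ℕ) : ℕ := ∑ l ∈ range (k + 1), if l ≤ m then u.choose l * R.choose (m - l) else 0

lemma bb_mono {R u u' k m : ℕ} (h : u ≤ u') : bb R u k m ≤ bb R u' k m := by
  unfold bb
  apply Finset.sum_le_sum
  intro l _
  split_ifs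
  · exact Nat.mul_le_mul_right _ (Nat.choose_le_choose l h)
  · exact le_rfl

lemma choose_le_bb (R u k m : ℕ) : R.choose m ≤ bb R u k m := by
  unfold bb
  refine le_trans ?_ (Finset.single_le_sum (f := fun l => if l ≤ m then u.choose l * R.choose (m - l)
    else 0) (fun _ _ => Nat.zero_le _) (Finset.mem_range.mpr (Nat.succ_pos k)))
  simp

lemma bb_pascal (R u k m : ℕ) :
    bb R u (k + 1) (m + 1) + bb R u k m = bb R (u + 1) (k + 1) (m + 1) := by
  unfold bb
  rw [Finset.sum_range_succ' (fun l => if l ≤ m + 1 then (u + 1).choose l * R.choose (m + 1 - l)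
    else 0) (k + 1)]
  rw [Finset.sum_range_succ' (fun l => if l ≤ m + 1 then u.choose l * R.choose (m + 1 - l)
    else 0) (k + 1)]
  have h : ∀ l, (if l + 1 ≤ m + 1 then (u + 1).choose (l + 1) * R.choose (m + 1 - (l + 1)) else 0)
      = (if l + 1 ≤ m + 1 then u.choose (l + 1) * R.choose (m + 1 - (l + 1)) else 0) +
        (if l ≤ m then u.choose l * R.choose (m - l) else 0) := by
    intro l
    by_cases hl : l ≤ m
    · rw [if_pos (by omega), if_pos (by omega), if_pos hl, Nat.choose_succ_succ,
        show m + 1 - (l + 1) = m - l by omega]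
      ring
    · rw [if_neg (by omega), if_neg (by omega), if_neg hl]
  simp only [h, Finset.sum_add_distrib]
  simp
  ring

lemma indep_subset (U : Finset V) (m : ℕ) : indep adj U m ⊆ U.powersetCard m :=
  fun _ hI => Finset.mem_powersetCard.mpr ((mem_indep adj).mp hI).1

lemma indep_zero (U : Finset V) : (indep adj U 0).card ≤ 1 := by
  refine (Finset.card_le_card (indep_subset adj U 0)).trans ?_
  simp

lemma card_indep_le_choose (U : Finset V) (m : ℕ) : (indep adj U m).card ≤ U.card.choose m := by
  refine (Finset.card_le_card (indep_subset adj U m)).trans ?_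
  rw [Finset.card_powersetCard]

/-- splitting according to a vertex -/
lemma indep_split (hsymm : ∀ x y, adj x y → adj y x) {U : Finset V} {v : V} (hv : v ∈ U) (m : ℕ) :
    (indep adj U (m + 1)).card ≤ (indep adj (U.erase v) (m + 1)).card +
      (indep adj ((U.erase v).filter fun y => ¬ adj v y) m).card := by
  classical
  have h1 : indep adj U (m + 1) ⊆ indep adj (U.erase v) (m + 1) ∪
      (indep adj ((U.erase v).filter fun y => ¬ adj v y) m).image (fun J => insert v J) := by
    intro I hI
    rw [mem_indep] at hI
    obtain ⟨⟨hIU, hIc⟩, hind⟩ := hI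
    rw [Finset.mem_union]
    by_cases hvI : v ∈ I
    · right
      rw [Finset.mem_image]
      refine ⟨I.erase v, ?_, Finset.insert_erase hvI⟩
      rw [mem_indep]
      refine ⟨⟨?_, ?_⟩, ?_⟩
      · intro y hy
        rw [Finset.mem_erase] at hy
        rw [Finset.mem_filter, Finset.mem_erase]
        exact ⟨⟨hy.1, hIU hy.2⟩, hind v hvI y hy.2 (Ne.symm hy.1)⟩
      · rw [Finset.card_erase_of_mem hvI, hIc]
        rfl
      · intro x hx y hy
        exact hind x (Finset.mem_of_mem_erase hx) y (Finset.mem_of_mem_erase hy)
    · left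
      rw [mem_indep]
      refine ⟨⟨?_, hIc⟩, hind⟩
      intro y hy
      rw [Finset.mem_erase]
      exact ⟨fun h => hvI (h ▸ hy), hIU hy⟩
  refine (Finset.card_le_card h1).trans ?_
  refine (Finset.card_union_le (indep adj (U.erase v) (m + 1))
    ((indep adj ((U.erase v).filter fun y => ¬ adj v y) m).image (fun J => insert v J))).trans ?_
  exact Nat.add_le_add_left Finset.card_image_le _

/-- Kleitman-Winston: if every set of more than `R` vertices has a vertex of relative degree at
least `β` inside it, and `(1-β)^k |U| ≤ R`, the number of independent sets of size `m` in `U` is at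
most `∑_{l ≤ k} C(|U|, l) C(R, m - l)`. -/
theorem kleitman_winston (hsymm : ∀ x y, adj x y → adj y x)
    (R : ℕ) (β : ℝ) (hβ1 : β ≤ 1)
    (hdeg : ∀ U : Finset V, R < U.card → ∃ v ∈ U,
      β * U.card ≤ ((U.filter fun y => adj v y).card : ℝ)) :
    ∀ (u : ℕ) (U : Finset V), U.card = u → ∀ k m : ℕ, (1 - β) ^ k * (U.card : ℝ) ≤ R →
      (indep adj U m).card ≤ bb R u k m := by
  intro u
  induction u using Nat.strong_induction_on with
  | _ u ih =>
    intro U hU k m hk
    by_cases hR : U.card ≤ R
    · exact ((card_indep_le_choose adj U m).trans (Nat.choose_le_choose m hR)).trans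
        (choose_le_bb R u k m)
    push Not at hR
    cases m with
    | zero =>
      refine (indep_zero adj U).trans ?_
      refine le_trans ?_ (choose_le_bb R u k 0)
      simp
    | succ m =>
      cases k with
      | zero =>
        exfalso
        rw [pow_zero, one_mul] at hk
        have : U.card ≤ R := by exact_mod_cast hk
        omega
      | succ k =>
        obtain ⟨v, hv, hdv⟩ := hdeg U hR
        have h1 := indep_split adj hsymm hv m
        have hc1 : (U.erase v).card = u - 1 := by rw [Finset.card_erase_of_mem hv, hU]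
        have hupos : 0 < u := by rw [← hU]; exact Finset.card_pos.mpr ⟨v, hv⟩
        have hb0 : 0 ≤ 1 - β := by linarith
        have h2 : (indep adj (U.erase v) (m + 1)).card ≤ bb R (u - 1) (k + 1) (m + 1) := by
          refine ih (u - 1) (by omega) _ hc1 (k + 1) (m + 1) ?_
          refine le_trans ?_ hk
          have : ((U.erase v).card : ℝ) ≤ U.card := by
            exact_mod_cast Finset.card_le_card (Finset.erase_subset _ _)
          gcongr
        set W := (U.erase v).filter fun y => ¬ adj v y with hW
        have hWcard : (W.card : ℝ) ≤ (1 - β) * U.card := by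
          have h3 : W ⊆ U.filter fun y => ¬ adj v y := by
            intro y hy
            rw [hW, Finset.mem_filter, Finset.mem_erase] at hy
            rw [Finset.mem_filter]
            exact ⟨hy.1.2, hy.2⟩
          have h4 := Finset.card_le_card h3
          have h5 := Finset.card_filter_add_card_filter_not (s := U) (fun y => adj v y)
          have h6 : (W.card : ℝ) ≤ ((U.filter fun y => ¬ adj v y).card : ℝ) := by exact_mod_cast h4
          have h7 : ((U.filter fun y => adj v y).card : ℝ) +
              ((U.filter fun y => ¬ adj v y).card : ℝ) = U.card := by exact_mod_cast h5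
          linarith
        have hWle : W.card ≤ u - 1 := by
          rw [← hc1]
          exact Finset.card_filter_le _ _
        have h3 : (indep adj W m).card ≤ bb R W.card k m := by
          refine ih W.card (by omega) W rfl k m ?_
          calc (1 - β) ^ k * (W.card : ℝ) ≤ (1 - β) ^ k * ((1 - β) * U.card) := by gcongr
            _ = (1 - β) ^ (k + 1) * U.card := by ring
            _ ≤ R := hk
        have h4 : bb R W.card k m ≤ bb R (u - 1) k m := bb_mono hWle
        calc (indep adj U (m + 1)).card ≤ _ := h1
          _ ≤ bb R (u - 1) (k + 1) (m + 1) + bb R (u - 1) k m := by omega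
          _ = bb R (u - 1 + 1) (k + 1) (m + 1) := bb_pascal R (u - 1) k m
          _ = bb R u (k + 1) (m + 1) := by rw [Nat.sub_add_cancel hupos]

end

/-- number of `K`-subsets of `univ` containing some member of a family of `m`-sets -/
lemma card_supersets_le {V : Type*} [Fintype V] [DecidableEq V] (F : Finset (Finset V)) (m K : ℕ)
    (hF : ∀ I ∈ F, I.card = m) :
    (((univ : Finset V).powersetCard K).filter fun X => ∃ I ∈ F, I ⊆ X).card ≤
      F.card * (Fintype.card V - m).choose (K - m) := by
  classical
  have h1 : (((univ : Finset V).powersetCard K).filter fun X => ∃ I ∈ F, I ⊆ X) ⊆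
      F.biUnion fun I => ((univ : Finset V).powersetCard K).filter fun X => I ⊆ X := by
    intro X hX
    rw [Finset.mem_filter] at hX
    obtain ⟨hX1, I, hI, hIX⟩ := hX
    rw [Finset.mem_biUnion]
    exact ⟨I, hI, Finset.mem_filter.mpr ⟨hX1, hIX⟩⟩
  refine (Finset.card_le_card h1).trans ?_
  refine (Finset.card_biUnion_le).trans ?_
  rw [← smul_eq_mul]
  apply Finset.sum_le_card_nsmul
  intro I hI
  have hIm := hF I hI
  -- map X to X \ I
  have h2 : (((univ : Finset V).powersetCard K).filter fun X => I ⊆ X).card ≤
      ((univ \ I).powersetCard (K - m)).card := by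
    apply Finset.card_le_card_of_injOn (fun X => X \ I)
    · intro X hX
      have hX' := Finset.mem_filter.mp (Finset.mem_coe.mp hX)
      have hXc := (Finset.mem_powersetCard.mp hX'.1).2
      rw [Finset.mem_coe, Finset.mem_powersetCard]
      refine ⟨Finset.sdiff_subset_sdiff (Finset.subset_univ X) (le_refl I), ?_⟩
      rw [Finset.card_sdiff_of_subset hX'.2, hXc, hIm]
    · intro X hX Y hY hXY
      have hX' := Finset.mem_filter.mp (Finset.mem_coe.mp hX)
      have hY' := Finset.mem_filter.mp (Finset.mem_coe.mp hY)
      have e1 : X = (X \ I) ∪ I := (Finset.sdiff_union_of_subset hX'.2).symm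
      have e2 : Y = (Y \ I) ∪ I := (Finset.sdiff_union_of_subset hY'.2).symm
      have hXY' : X \ I = Y \ I := hXY
      rw [e1, e2, hXY']
  refine h2.trans ?_
  rw [Finset.card_powersetCard, Finset.card_sdiff_of_subset (Finset.subset_univ I), hIm,
    Finset.card_univ]

/-- ratio of binomials -/
lemma choose_ratio (N K m : ℕ) (hmK : m ≤ K) (hKN : K ≤ N) (hN : 0 < N) :
    ((N - m).choose (K - m) : ℝ) ≤ ((K : ℝ) / N) ^ m * (N.choose K : ℝ) := by
  induction m with
  | zero => simp
  | succ m ih =>
    have ih' := ih (by omega)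
    have hNm : (0 : ℝ) < (N : ℝ) - m := by
      have : ((m + 1 : ℕ) : ℝ) ≤ N := by exact_mod_cast hmK.trans hKN
      push_cast at this
      linarith
    have h1 : (N - m) * (N - (m + 1)).choose (K - (m + 1)) = (K - m) * (N - m).choose (K - m) := by
      have h2 := Nat.add_one_mul_choose_eq (N - (m + 1)) (K - (m + 1))
      rw [show N - (m + 1) + 1 = N - m by omega, show K - (m + 1) + 1 = K - m by omega] at h2
      rw [h2]
      ring
    have h3 : ((N : ℝ) - m) * ((N - (m + 1)).choose (K - (m + 1)) : ℝ) =
        ((K : ℝ) - m) * ((N - m).choose (K - m) : ℝ) := by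
      have := congrArg (fun t : ℕ => (t : ℝ)) h1
      simp only [Nat.cast_mul] at this
      rw [Nat.cast_sub (by omega), Nat.cast_sub (by omega)] at this
      exact this
    have h4 : ((N - (m + 1)).choose (K - (m + 1)) : ℝ) =
        ((K : ℝ) - m) / ((N : ℝ) - m) * ((N - m).choose (K - m) : ℝ) := by
      rw [div_mul_eq_mul_div, eq_div_iff hNm.ne', mul_comm]
      exact h3
    have hN' : (0 : ℝ) < N := by exact_mod_cast hN
    have h5 : ((K : ℝ) - m) / ((N : ℝ) - m) ≤ (K : ℝ) / N := by
      rw [div_le_div_iff₀ hNm hN']
      have hKN' : (K : ℝ) ≤ N := by exact_mod_cast hKN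
      have hm0 : (0 : ℝ) ≤ m := Nat.cast_nonneg m
      nlinarith
    rw [h4]
    calc ((K : ℝ) - m) / ((N : ℝ) - m) * ((N - m).choose (K - m) : ℝ)
        ≤ (K : ℝ) / N * (((K : ℝ) / N) ^ m * (N.choose K : ℝ)) := by
          have h6 : (0 : ℝ) ≤ ((N - m).choose (K - m) : ℝ) := Nat.cast_nonneg _
          have h7 : (0 : ℝ) ≤ (K : ℝ) / N := by positivity
          exact mul_le_mul h5 ih' h6 h7
      _ = _ := by ring

end Pool.Agent.Lib.MP_0430e4_lc.Rand
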