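import Pool.Agent.Lib.MP_0430e4_lc.Rand.Super
import Pool.Agent.Lib.MP_0430e4_lc.Rand.Container

/-!
Finite estimates: number of codes, proportion of sets containing a large code.
-/

set_option autoImplicit false

namespace Pool.Agent.Lib.MP_0430e4_lc.Rand

open Finset

/-- distinct words at distance less than `d` -/
def close {n : ℕ} (d : ℕ) (x y : Fin n → Bool) : Prop := x ≠ y ∧ hammingDist x y < d

instance {n : ℕ} (d : ℕ) : DecidableRel (close (n := n) d) := fun _ _ => inferInstanceAs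
  (Decidable (_ ∧ _))

/-- distinct words of `C` have distance at least `d` -/
def IsCode {n : ℕ} (d : ℕ) (C : Finset (Fin n → Bool)) : Prop :=
  ∀ x ∈ C, ∀ y ∈ C, x ≠ y → d ≤ hammingDist x y

lemma mem_indep_close {n d m : ℕ} {U C : Finset (Fin n → Bool)} :
    C ∈ indep (close d) U m ↔ C ⊆ U ∧ C.card = m ∧ IsCode d C := by
  rw [mem_indep, and_assoc]
  constructor
  · rintro ⟨h1, h2, h3⟩
    refine ⟨h1, h2, fun x hx y hy hxy => ?_⟩
    have := h3 x hx y hy hxy
    by_contra hcon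
    exact this ⟨hxy, by omega⟩
  · rintro ⟨h1, h2, h3⟩
    refine ⟨h1, h2, fun x hx y hy hxy hcl => ?_⟩
    have h4 := h3 x hx y hy hxy
    have h5 := hcl.2
    omega

lemma pairs_eq_sum {n : ℕ} (U : Finset (Fin n → Bool)) (i : ℕ) :
    pairs U i = ∑ x ∈ U, (U.filter fun y => hammingDist x y = i).card := by
  unfold pairs
  rw [Finset.card_filter, Finset.sum_product]
  apply Finset.sum_congr rfl
  intro x _
  rw [Finset.card_filter]

lemma exists_degree {n d i j0 : ℕ} (hi0 : 0 < i) (hid : i < d) (hi : Even i)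
    (hi2 : 2 * i ≤ n + 1) (hj0 : 2 * j0 ≤ n)
    (hcond : 4 * ((i : ℝ) * (n + 1 - i)) ≤ ((n : ℝ) - 2 * j0) ^ 2) {R : ℕ}
    (hR : 2 * 2 ^ n * Real.sqrt (2 ^ n * (n.choose i : ℝ) / n.choose j0) ≤ R * (n.choose i : ℝ))
    (U : Finset (Fin n → Bool)) (hU : R < U.card) :
    ∃ v ∈ U, (n.choose i : ℝ) / (2 * 2 ^ n) * U.card ≤
      ((U.filter fun y => close d v y).card : ℝ) := by
  set τ := Real.sqrt (2 ^ n * (n.choose i : ℝ) / n.choose j0) with hτ
  have h1 := pairs_ge U (Real.sqrt_nonneg _) (kc_ge hi hi2 hj0 hcond)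
  rw [← hτ] at h1
  have hUpos : (0 : ℝ) < U.card := by
    have : 0 < U.card := by omega
    exact_mod_cast this
  have hin : i ≤ n := by omega
  have hC : (0 : ℝ) < n.choose i := by exact_mod_cast Nat.choose_pos hin
  have h2n : (0 : ℝ) < 2 ^ n := by positivity
  have hRU : (R : ℝ) ≤ U.card := by exact_mod_cast hU.le
  have h2 : 2 * (2 ^ n * (τ * U.card)) ≤ (U.card : ℝ) ^ 2 * n.choose i := by
    calc 2 * (2 ^ n * (τ * U.card)) = (2 * 2 ^ n * τ) * U.card := by ring
      _ ≤ (R * (n.choose i : ℝ)) * U.card := by gcongr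
      _ ≤ (U.card * (n.choose i : ℝ)) * U.card := by gcongr
      _ = _ := by ring
  have h3 : (U.card : ℝ) ^ 2 * n.choose i ≤ 2 * 2 ^ n * (pairs U i : ℝ) := by
    linarith
  by_contra hcon
  push Not at hcon
  have h4 : (pairs U i : ℝ) < ∑ _x ∈ U, (n.choose i : ℝ) / (2 * 2 ^ n) * U.card := by
    rw [pairs_eq_sum]
    push_cast
    apply Finset.sum_lt_sum_of_nonempty (Finset.card_pos.mp (by exact_mod_cast hUpos))
    intro v hv
    refine lt_of_le_of_lt ?_ (hcon v hv)
    have : (U.filter fun y => hammingDist v y = i) ⊆ (U.filter fun y => close d v y) := by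
      intro y hy
      rw [Finset.mem_filter] at hy ⊢
      refine ⟨hy.1, ?_, by omega⟩
      rintro rfl
      rw [hammingDist_self] at hy
      omega
    exact_mod_cast Finset.card_le_card this
  rw [Finset.sum_const, nsmul_eq_mul] at h4
  have h5 : 2 * 2 ^ n * (pairs U i : ℝ) < (U.card : ℝ) ^ 2 * n.choose i := by
    calc 2 * 2 ^ n * (pairs U i : ℝ) <
        2 * 2 ^ n * (U.card * ((n.choose i : ℝ) / (2 * 2 ^ n) * U.card)) := by gcongr
      _ = (U.card : ℝ) ^ 2 * n.choose i := by field_simp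
  linarith

lemma close_symm {n d : ℕ} (x y : Fin n → Bool) (h : close d x y) : close d y x :=
  ⟨h.1.symm, by rw [hammingDist_comm]; exact h.2⟩

/-- number of codes with `m` words -/
theorem count_codes {n d i j0 : ℕ} (hi0 : 0 < i) (hid : i < d) (hi : Even i)
    (hi2 : 2 * i ≤ n + 1) (hj0 : 2 * j0 ≤ n)
    (hcond : 4 * ((i : ℝ) * (n + 1 - i)) ≤ ((n : ℝ) - 2 * j0) ^ 2) {R k : ℕ}
    (hR : 2 * 2 ^ n * Real.sqrt (2 ^ n * (n.choose i : ℝ) / n.choose j0) ≤ R * (n.choose i : ℝ))
    (hk : (1 - (n.choose i : ℝ) / (2 * 2 ^ n)) ^ k * 2 ^ n ≤ R) (m : ℕ) :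
    (indep (close (n := n) d) univ m).card ≤ bb R (2 ^ n) k m := by
  have hβ : (n.choose i : ℝ) / (2 * 2 ^ n) ≤ 1 := by
    rw [div_le_one (by positivity)]
    have h1 : n.choose i ≤ 2 ^ n := by
      rw [← Nat.sum_range_choose n]
      exact Finset.single_le_sum (fun _ _ => Nat.zero_le _)
        (Finset.mem_range.mpr (by omega))
    have h2 : (n.choose i : ℝ) ≤ 2 ^ n := by exact_mod_cast h1
    have h3 : (0 : ℝ) < 2 ^ n := by positivity
    linarith
  have hcard : (univ : Finset (Fin n → Bool)).card = 2 ^ n := by simp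
  have := kleitman_winston (close (n := n) d) close_symm R _ hβ
    (fun U hU => exists_degree hi0 hid hi hi2 hj0 hcond hR U hU) (2 ^ n) univ hcard k m
    (by rw [hcard]; push_cast; exact hk)
  exact this

/-- estimate of the binomial sum -/
lemma bb_le {R N k m : ℕ} {T : ℝ} (hT0 : 0 < T) (hT1 : T ≤ 1) (hkm : 2 * k ≤ m) (hm : 0 < m)
    (hN : 1 ≤ N) {θ : ℝ} (hθ : 2 * Real.exp 1 * R * T / m ≤ θ) (hθ1 : θ ≤ 1) :
    (bb R N k m : ℝ) * T ^ m ≤ (k + 1) * ((N : ℝ) ^ k * θ ^ (m - k)) := by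
  unfold bb
  push_cast
  rw [Finset.sum_mul]
  have hm' : (0 : ℝ) < m := by exact_mod_cast hm
  have hθ0 : 0 ≤ θ := le_trans (by positivity) hθ
  have hN' : (1 : ℝ) ≤ N := by exact_mod_cast hN
  have hterm : ∀ l ∈ range (k + 1),
      (if l ≤ m then (N.choose l : ℝ) * (R.choose (m - l) : ℝ) else 0) * T ^ m ≤
        (N : ℝ) ^ k * θ ^ (m - k) := by
    intro l hl
    rw [Finset.mem_range] at hl
    have hlm : l ≤ m := by omega
    rw [if_pos hlm]
    set t := m - l with ht
    have ht0 : 0 < t := by omega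
    have ht2 : (m : ℝ) / 2 ≤ t := by
      have : m ≤ 2 * t := by omega
      have : (m : ℝ) ≤ 2 * t := by exact_mod_cast this
      linarith
    have ht0' : (0 : ℝ) < t := by exact_mod_cast ht0
    have e1 : (N.choose l : ℝ) ≤ (N : ℝ) ^ l := by
      have := Nat.choose_le_pow_div (α := ℝ) l N
      refine this.trans ?_
      apply div_le_self (by positivity)
      exact_mod_cast Nat.one_le_iff_ne_zero.mpr (Nat.factorial_ne_zero l)
    have e2 : (R.choose t : ℝ) ≤ (R : ℝ) ^ t / t.factorial := Nat.choose_le_pow_div t R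
    have e3 : ((t : ℝ) ^ t / Real.exp t) ≤ t.factorial := by
      have := Real.pow_div_factorial_le_exp (t : ℝ) ht0'.le t
      rw [div_le_iff₀ (by positivity)] at this
      rw [div_le_iff₀ (Real.exp_pos _)]
      linarith
    have e4 : (R : ℝ) ^ t / t.factorial ≤ (2 * Real.exp 1 * R / m) ^ t := by
      rw [div_le_iff₀ (by positivity)]
      have e5 : Real.exp (t : ℝ) = Real.exp 1 ^ t := by
        rw [← Real.exp_nat_mul, mul_one]
      calc (R : ℝ) ^ t = (2 * Real.exp 1 * R / m) ^ t * ((m / 2) ^ t / Real.exp t) := by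
            rw [e5, ← div_pow, ← mul_pow]
            congr 1
            have := Real.exp_pos 1
            field_simp
        _ ≤ (2 * Real.exp 1 * R / m) ^ t * ((t : ℝ) ^ t / Real.exp t) := by gcongr
        _ ≤ (2 * Real.exp 1 * R / m) ^ t * t.factorial := by gcongr
    have e6 : (R.choose t : ℝ) * T ^ t ≤ θ ^ t := by
      calc (R.choose t : ℝ) * T ^ t ≤ (2 * Real.exp 1 * R / m) ^ t * T ^ t := by
            gcongr
            exact e2.trans e4
        _ = (2 * Real.exp 1 * R * T / m) ^ t := by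
            rw [← mul_pow]
            congr 1
            ring
        _ ≤ θ ^ t := by gcongr
    have e7 : T ^ m = T ^ t * T ^ l := by rw [← pow_add]; congr 1; omega
    have e8 : T ^ l ≤ 1 := pow_le_one₀ hT0.le hT1
    calc (N.choose l : ℝ) * (R.choose t : ℝ) * T ^ m
        = (N.choose l : ℝ) * ((R.choose t : ℝ) * T ^ t) * T ^ l := by rw [e7]; ring
      _ ≤ (N : ℝ) ^ l * θ ^ t * 1 := by gcongr
      _ ≤ (N : ℝ) ^ k * θ ^ (m - k) * 1 := by
          have e9 : (N : ℝ) ^ l ≤ (N : ℝ) ^ k := pow_le_pow_right₀ hN' (by omega)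
          have e10 : θ ^ t ≤ θ ^ (m - k) := pow_le_pow_of_le_one hθ0 hθ1 (by omega)
          gcongr
      _ = _ := mul_one _
  refine (Finset.sum_le_card_nsmul _ _ _ hterm).trans ?_
  rw [Finset.card_range, nsmul_eq_mul]
  push_cast
  exact le_rfl

end Pool.Agent.Lib.MP_0430e4_lc.Rand
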