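import Pool.Agent.Lib.MP_0430e4_lc.TensorCert

/-!
Krawtchouk polynomials: generating function, positivity before the first root, Parseval bound.
-/

set_option autoImplicit false

namespace Pool.Agent.Lib.MP_0430e4_lc.Rand

open Finset Polynomial
open Pool.Agent.Lib.MP_0430e4_lc.Tensor

/-- generating polynomial -/
noncomputable def gen (n j : ℕ) : ℝ[X] := (1 - X) ^ j * (1 + X) ^ (n - j)

/-- Krawtchouk value `K_i(j)` -/
noncomputable def kc (n i j : ℕ) : ℝ := (gen n j).coeff i

lemma kc_zero (n j : ℕ) : kc n 0 j = 1 := by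
  unfold kc gen
  rw [mul_coeff_zero]
  simp [coeff_zero_eq_eval_zero]

lemma kc_at_zero (n i : ℕ) : kc n i 0 = (n.choose i : ℝ) := by
  unfold kc gen
  rw [pow_zero, one_mul, Nat.sub_zero, add_comm, Polynomial.coeff_X_add_one_pow]

lemma derivative_gen {n j : ℕ} (hj : j ≤ n) :
    (1 - X ^ 2) * derivative (gen n j) =
      (C ((n : ℝ) - 2 * j) - C (n : ℝ) * X) * gen n j := by
  have h1 : (1 - X) * derivative ((1 - X : ℝ[X]) ^ j) = - C (j : ℝ) * (1 - X) ^ j := by
    rw [derivative_pow]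
    cases j with
    | zero => simp
    | succ j =>
      simp only [derivative_sub, derivative_one, derivative_X]
      rw [Nat.add_sub_cancel]
      ring
  have h2 : (1 + X) * derivative ((1 + X : ℝ[X]) ^ (n - j)) = C ((n : ℝ) - j) * (1 + X) ^ (n - j) := by
    rw [derivative_pow, ← Nat.cast_sub hj]
    cases (n - j) with
    | zero => simp
    | succ m =>
      simp only [derivative_add, derivative_one, derivative_X]
      rw [Nat.add_sub_cancel]
      ring
  unfold gen
  rw [derivative_mul]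
  have e1 : (1 - X ^ 2 : ℝ[X]) = (1 - X) * (1 + X) := by ring
  have e2 : (C ((n : ℝ) - 2 * j) - C (n : ℝ) * X : ℝ[X]) =
      - C (j : ℝ) * (1 + X) + C ((n : ℝ) - j) * (1 - X) := by
    rw [C_sub, C_sub, C_mul]
    have : (C (2 : ℝ) : ℝ[X]) = 2 := rfl
    rw [this]
    ring
  rw [e1, e2]
  calc (1 - X) * (1 + X) * (derivative ((1 - X : ℝ[X]) ^ j) * (1 + X) ^ (n - j) +
      (1 - X) ^ j * derivative ((1 + X : ℝ[X]) ^ (n - j)))
      = ((1 - X) * derivative ((1 - X : ℝ[X]) ^ j)) * ((1 + X) * (1 + X) ^ (n - j)) +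
        ((1 + X) * derivative ((1 + X : ℝ[X]) ^ (n - j))) * ((1 - X) * (1 - X) ^ j) := by ring
    _ = _ := by rw [h1, h2]; ring

lemma kc_rec {n j : ℕ} (hj : j ≤ n) (k : ℕ) :
    ((k : ℝ) + 2) * kc n (k + 2) j = ((n : ℝ) - 2 * j) * kc n (k + 1) j - ((n : ℝ) - k) * kc n k j := by
  have h := congrArg (fun p : ℝ[X] => p.coeff (k + 1)) (derivative_gen hj)
  simp only [sub_mul, one_mul, coeff_sub, coeff_derivative, mul_assoc, coeff_C_mul] at h
  rw [coeff_X_pow_mul', coeff_X_mul] at h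
  unfold kc
  by_cases hk : 2 ≤ k + 1
  · rw [if_pos hk] at h
    obtain ⟨m, rfl⟩ : ∃ m, k = m + 1 := ⟨k - 1, by omega⟩
    rw [show m + 1 + 1 - 2 = m by omega, coeff_derivative] at h
    push_cast at h ⊢
    linarith
  · rw [if_neg hk] at h
    obtain rfl : k = 0 := by omega
    push_cast at h ⊢
    linarith

lemma kc_one {n j : ℕ} (hj : j ≤ n) : kc n 1 j = (n : ℝ) - 2 * j := by
  have h := congrArg (fun p : ℝ[X] => p.coeff 0) (derivative_gen hj)
  simp only [sub_mul, one_mul, coeff_sub, coeff_derivative, mul_assoc, coeff_C_mul] at h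
  rw [coeff_X_pow_mul', coeff_X_mul_zero] at h
  simp at h
  have h0 := kc_zero n j
  unfold kc at h0 ⊢
  rw [h0] at h
  linarith

lemma kc_symm {n i j : ℕ} (hj : j ≤ n) (hi : Even i) : kc n i (n - j) = kc n i j := by
  unfold kc
  have h1 : gen n (n - j) = (gen n j).comp (-X) := by
    unfold gen
    rw [mul_comp, pow_comp, pow_comp, Nat.sub_sub_self hj]
    simp only [sub_comp, one_comp, X_comp, add_comp]
    rw [mul_comm]
    congr 1
    · ring_nf
  have h2 : (-X : ℝ[X]) = C (-1 : ℝ) * X := by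
    rw [C_neg, C_1]
    ring
  rw [h1, h2, comp_C_mul_X_coeff, hi.neg_one_pow, mul_one]

lemma mono_aux {n i k : ℕ} (hk : k ≤ i) (hi : 2 * i ≤ n + 1) :
    (k : ℝ) * (n + 1 - k) ≤ (i : ℝ) * (n + 1 - i) := by
  have h1 : (k : ℝ) ≤ i := by exact_mod_cast hk
  have h2 : (2 : ℝ) * i ≤ n + 1 := by exact_mod_cast hi
  nlinarith

lemma kc_pos_aux {n i j : ℕ} (hj : 2 * j ≤ n) (hi : 2 * i ≤ n + 1)
    (hcond : 4 * ((i : ℝ) * (n + 1 - i)) ≤ ((n : ℝ) - 2 * j) ^ 2) :
    ∀ k, k + 1 ≤ i → 0 ≤ kc n k j ∧ 0 ≤ kc n (k + 1) j ∧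
      Real.sqrt (((k : ℝ) + 1) * (n - k)) * kc n k j ≤ (k + 1) * kc n (k + 1) j := by
  have hjn : j ≤ n := by omega
  have hL0 : (0 : ℝ) ≤ (n : ℝ) - 2 * j := by
    have : ((2 * j : ℕ) : ℝ) ≤ n := by exact_mod_cast hj
    push_cast at this
    linarith
  set L : ℝ := (n : ℝ) - 2 * j with hL
  set S : ℝ := Real.sqrt ((i : ℝ) * (n + 1 - i)) with hS
  have hin : (i : ℝ) ≤ n + 1 := by
    have : i ≤ n + 1 := by omega
    exact_mod_cast this
  have hS2 : 2 * S ≤ L := by
    rw [hS]
    have h1 : Real.sqrt (4 * ((i : ℝ) * (n + 1 - i))) ≤ Real.sqrt (L ^ 2) :=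
      Real.sqrt_le_sqrt hcond
    rw [Real.sqrt_sq hL0, show (4 : ℝ) = 2 ^ 2 by norm_num, Real.sqrt_mul (by positivity),
      Real.sqrt_sq (by norm_num)] at h1
    exact h1
  have hs : ∀ k : ℕ, k + 1 ≤ i → Real.sqrt (((k : ℝ) + 1) * (n - k)) ≤ S := by
    intro k hk
    rw [hS]
    apply Real.sqrt_le_sqrt
    have := mono_aux hk hi
    push_cast at this
    have e : (n : ℝ) + 1 - (k + 1) = n - k := by ring
    rw [e] at this
    exact this
  intro k
  induction k with
  | zero =>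
    intro hk
    have h1 := hs 0 hk
    have hS0 : 0 ≤ S := Real.sqrt_nonneg _
    rw [kc_zero, zero_add, kc_one hjn]
    refine ⟨zero_le_one, hL0, ?_⟩
    push_cast
    push_cast at h1
    rw [mul_one]
    have e : (0 + 1 : ℝ) * (↑n - 2 * ↑j) = L := by ring
    rw [e]
    linarith
  | succ k ih =>
    intro hk
    obtain ⟨h0, h1, h2⟩ := ih (by omega)
    have hrec := kc_rec hjn k
    set c0 := kc n k j
    set c1 := kc n (k + 1) j
    set c2 := kc n (k + 2) j
    have hkn : (k : ℝ) + 1 ≤ n := by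
      have : k + 1 ≤ n := by omega
      exact_mod_cast this
    set s := Real.sqrt (((k : ℝ) + 1) * (n - k)) with hsdef
    have hs0 : 0 ≤ s := Real.sqrt_nonneg _
    have hssq : s * s = ((k : ℝ) + 1) * (n - k) := Real.mul_self_sqrt (by
      apply mul_nonneg <;> linarith [Nat.cast_nonneg (α := ℝ) k])
    have hk0 : (0 : ℝ) < (k : ℝ) + 1 := by positivity
    have h3 : ((n : ℝ) - k) * c0 ≤ s * c1 := by
      have h4 : s * (s * c0) ≤ s * ((k + 1) * c1) := mul_le_mul_of_nonneg_left h2 hs0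
      have h5 : (k + 1 : ℝ) * (((n : ℝ) - k) * c0) ≤ (k + 1) * (s * c1) := by
        calc (k + 1 : ℝ) * (((n : ℝ) - k) * c0) = s * s * c0 := by rw [hssq]; ring
          _ = s * (s * c0) := by ring
          _ ≤ s * ((k + 1) * c1) := h4
          _ = _ := by ring
      exact le_of_mul_le_mul_left h5 hk0
    have hsS := hs k (by omega)
    have hs2 := hs (k + 1) (by omega)
    rw [← hsdef] at hsS
    push_cast at hs2
    have h6 : ((k : ℝ) + 2) * c2 ≥ S * c1 := by
      rw [hrec]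
      have : L * c1 ≥ (2 * S) * c1 := mul_le_mul_of_nonneg_right hS2 h1
      have : s * c1 ≤ S * c1 := mul_le_mul_of_nonneg_right hsS h1
      linarith
    have hS0 : 0 ≤ S := Real.sqrt_nonneg _
    refine ⟨h1, ?_, ?_⟩
    · have h7 : 0 ≤ ((k : ℝ) + 2) * c2 := le_trans (mul_nonneg hS0 h1) h6
      exact nonneg_of_mul_nonneg_right h7 (by positivity)
    · push_cast
      have e : ((k : ℝ) + 1 + 1) * kc n (k + 1 + 1) j = (k + 2) * c2 := by
        change ((k : ℝ) + 1 + 1) * c2 = _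
        ring
      rw [e]
      have : Real.sqrt (((k : ℝ) + 1 + 1) * (n - (k + 1))) * c1 ≤ S * c1 :=
        mul_le_mul_of_nonneg_right hs2 h1
      linarith

lemma kc_nonneg {n i j : ℕ} (hj : 2 * j ≤ n) (hi : 2 * i ≤ n + 1)
    (hcond : 4 * ((i : ℝ) * (n + 1 - i)) ≤ ((n : ℝ) - 2 * j) ^ 2) : 0 ≤ kc n i j := by
  cases i with
  | zero => rw [kc_zero]; exact zero_le_one
  | succ i => exact (kc_pos_aux hj hi hcond i le_rfl).2.1

/-- weight of a word -/
def wt {n : ℕ} (x : Fin n → Bool) : ℕ := (univ.filter fun i => x i = true).card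

lemma wt_le {n : ℕ} (x : Fin n → Bool) : wt x ≤ n := by
  have := Finset.card_filter_le (univ : Finset (Fin n)) (fun i => x i = true)
  simpa [wt] using this

lemma sum_chi_X {n : ℕ} (y : Fin n → Bool) :
    ∑ x : Fin n → Bool, C (chi x y) * X ^ (wt x) = gen n (wt y) := by
  have h1 : ∀ i, (if y i = true then (1 - X : ℝ[X]) else 1 + X) =
      ∑ b : Bool, C (sg b (y i)) * X ^ b.toNat := by
    intro i
    cases y i
    · simp [sg, add_comm]
    · simp [sg]
      ring
  have h2 : gen n (wt y) = ∏ i, (if y i = true then (1 - X : ℝ[X]) else 1 + X) := by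
    rw [Finset.prod_ite, Finset.prod_const, Finset.prod_const]
    unfold gen
    congr 2
    have := Finset.card_filter_add_card_filter_not (s := (univ : Finset (Fin n))) (fun i => y i = true)
    simp only [Finset.card_univ, Fintype.card_fin] at this
    unfold wt
    omega
  rw [h2]
  simp only [h1]
  rw [Finset.prod_univ_sum, Fintype.piFinset_univ]
  apply Finset.sum_congr rfl
  intro x _
  rw [Finset.prod_mul_distrib, Finset.prod_pow_eq_pow_sum, chi_eq, map_prod]
  congr 2
  unfold wt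
  rw [Finset.card_filter]
  apply Finset.sum_congr rfl
  intro i _
  cases x i <;> simp

lemma sum_chi_wt {n : ℕ} (i : ℕ) (y : Fin n → Bool) :
    ∑ x : Fin n → Bool, (if wt x = i then chi x y else 0) = kc n i (wt y) := by
  unfold kc
  rw [← sum_chi_X, finsetSum_coeff]
  apply Finset.sum_congr rfl
  intro x _
  rw [coeff_C_mul, coeff_X_pow]
  by_cases h : wt x = i
  · simp [h]
  · simp [h, Ne.symm h]

lemma card_wt (n i : ℕ) :
    ((univ.filter fun x : Fin n → Bool => wt x = i).card : ℝ) = n.choose i := by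
  have h := sum_chi_wt i (fun _ : Fin n => false)
  have h0 : wt (fun _ : Fin n => false) = 0 := by simp [wt]
  rw [h0, kc_at_zero] at h
  rw [← h]
  simp only [chi_zero_right]
  rw [Finset.sum_boole]

end Pool.Agent.Lib.MP_0430e4_lc.Rand
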