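import Pool.Agent.Lib.MP_0430e4_lc.Rand.Finite

/-!
Lower bound: most sets contain a code of the expected size.
-/

set_option autoImplicit false

namespace Pool.Agent.Lib.MP_0430e4_lc.Rand

open Finset

/-- Greedy independent set. -/
lemma exists_indep_greedy {V : Type*} [DecidableEq V] (adj : V → V → Prop) [DecidableRel adj]
    (hirr : ∀ x, ¬ adj x x) (X : Finset V) (e : ℕ)
    (he : ∑ x ∈ X, (X.filter fun y => adj x y).card ≤ e) :
    ∃ I ⊆ X, (∀ x ∈ I, ∀ y ∈ I, x ≠ y → ¬ (adj x y ∨ adj y x)) ∧
      X.card ^ 2 ≤ I.card * (2 * X.card + 8 * e) := by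
  let deg : V → ℕ := fun x => (X.filter fun y => adj x y).card
  let deg' : V → ℕ := fun x => (X.filter fun y => adj y x).card
  have he' : ∑ x ∈ X, deg' x ≤ e := by
    have : ∑ x ∈ X, deg' x = ∑ x ∈ X, deg x := by
      simp only [deg, deg', Finset.card_filter]
      rw [Finset.sum_comm]
    rw [this]
    exact he
  have het : ∑ x ∈ X, (deg x + deg' x) ≤ 2 * e := by
    rw [Finset.sum_add_distrib]
    have : ∑ x ∈ X, deg x ≤ e := he
    omega
  let Y := X.filter fun x => (deg x + deg' x) * X.card ≤ 4 * e
  have hY : X.card ≤ 2 * Y.card := by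
    by_contra hcon
    push Not at hcon
    have h1 := Finset.card_filter_add_card_filter_not (s := X)
      (fun x => (deg x + deg' x) * X.card ≤ 4 * e)
    set Z := X.filter fun x => ¬ ((deg x + deg' x) * X.card ≤ 4 * e) with hZ
    have hYZ : Y.card + Z.card = X.card := h1
    have hZ2 : X.card < 2 * Z.card := by omega
    have h2 : Z.card * (4 * e + 1) ≤ ∑ x ∈ Z, (deg x + deg' x) * X.card := by
      rw [← smul_eq_mul]
      apply Finset.card_nsmul_le_sum
      intro x hx
      rw [hZ, Finset.mem_filter] at hx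
      omega
    have h3 : ∑ x ∈ Z, (deg x + deg' x) * X.card ≤ (2 * e) * X.card := by
      rw [← Finset.sum_mul]
      apply Nat.mul_le_mul_right
      exact (Finset.sum_le_sum_of_subset (Finset.filter_subset _ _)).trans het
    have h4 : Z.card * (4 * e + 1) ≤ 2 * e * X.card := h2.trans h3
    have h5 : 2 * e * X.card ≤ 2 * e * (2 * Z.card) := Nat.mul_le_mul_left _ hZ2.le
    have h6 : Z.card * (4 * e + 1) = 2 * e * (2 * Z.card) + Z.card := by ring
    have h7 : 0 < Z.card := by omega
    omega
  obtain ⟨I, hI, hmax⟩ := Finset.exists_max_image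
    (Y.powerset.filter fun I => ∀ x ∈ I, ∀ y ∈ I, x ≠ y → ¬ (adj x y ∨ adj y x)) Finset.card
    ⟨∅, by simp⟩
  rw [Finset.mem_filter, Finset.mem_powerset] at hI
  obtain ⟨hIY, hIind⟩ := hI
  have hIX : I ⊆ X := hIY.trans (Finset.filter_subset _ _)
  refine ⟨I, hIX, hIind, ?_⟩
  have hcov : Y ⊆ I.biUnion fun x => insert x ((X.filter fun y => adj x y) ∪
      (X.filter fun y => adj y x)) := by
    intro y hy
    rw [Finset.mem_biUnion]
    by_contra hcon
    push Not at hcon
    have hyX : y ∈ X := (Finset.mem_filter.mp hy).1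
    have hyI : y ∉ I := fun h => hcon y h (Finset.mem_insert_self _ _)
    have hna : ∀ x ∈ I, ¬ adj x y ∧ ¬ adj y x := by
      intro x hx
      have := hcon x hx
      rw [Finset.mem_insert, Finset.mem_union, Finset.mem_filter, Finset.mem_filter] at this
      push Not at this
      exact ⟨this.2.1 hyX, this.2.2 hyX⟩
    have h1 : insert y I ∈ (Y.powerset.filter fun I => ∀ x ∈ I, ∀ y ∈ I, x ≠ y →
        ¬ (adj x y ∨ adj y x)) := by
      rw [Finset.mem_filter, Finset.mem_powerset]
      refine ⟨Finset.insert_subset hy hIY, ?_⟩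
      intro a ha b hb hab
      rw [Finset.mem_insert] at ha hb
      rcases ha with rfl | ha <;> rcases hb with rfl | hb
      · exact absurd rfl hab
      · have := hna b hb
        tauto
      · have := hna a ha
        tauto
      · exact hIind a ha b hb hab
    have h2 := hmax _ h1
    rw [Finset.card_insert_of_notMem hyI] at h2
    omega
  have h8 : Y.card * X.card ≤ I.card * (X.card + 4 * e) := by
    calc Y.card * X.card ≤ (∑ x ∈ I, (insert x ((X.filter fun y => adj x y) ∪
      (X.filter fun y => adj y x))).card) * X.card := by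
          apply Nat.mul_le_mul_right
          exact (Finset.card_le_card hcov).trans Finset.card_biUnion_le
      _ = ∑ x ∈ I, (insert x ((X.filter fun y => adj x y) ∪
      (X.filter fun y => adj y x))).card * X.card := by rw [Finset.sum_mul]
      _ ≤ ∑ _x ∈ I, (X.card + 4 * e) := by
          apply Finset.sum_le_sum
          intro x hx
          have hxY := hIY hx
          have h9 : (deg x + deg' x) * X.card ≤ 4 * e := (Finset.mem_filter.mp hxY).2
          have h10 : (insert x ((X.filter fun y => adj x y) ∪ (X.filter fun y => adj y x))).card ≤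
              deg x + deg' x + 1 := by
            refine (Finset.card_insert_le _ _).trans ?_
            have := Finset.card_union_le (X.filter fun y => adj x y) (X.filter fun y => adj y x)
            exact Nat.add_le_add_right this 1
          calc _ ≤ (deg x + deg' x + 1) * X.card := Nat.mul_le_mul_right _ h10
            _ = (deg x + deg' x) * X.card + X.card := by ring
            _ ≤ X.card + 4 * e := by omega
      _ = I.card * (X.card + 4 * e) := by rw [Finset.sum_const, smul_eq_mul]
  calc X.card ^ 2 = X.card * X.card := by ring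
    _ ≤ (2 * Y.card) * X.card := Nat.mul_le_mul_right _ hY
    _ = 2 * (Y.card * X.card) := by ring
    _ ≤ 2 * (I.card * (X.card + 4 * e)) := Nat.mul_le_mul_left _ h8
    _ = _ := by ring

/-- ordered close pairs -/
def cp {n : ℕ} (d : ℕ) (X : Finset (Fin n → Bool)) : ℕ :=
  ((X ×ˢ X).filter fun p => close d p.1 p.2).card

lemma cp_eq_sum {n d : ℕ} (X : Finset (Fin n → Bool)) :
    cp d X = ∑ x ∈ X, (X.filter fun y => close d x y).card := by
  unfold cp
  rw [Finset.card_filter, Finset.sum_product]
  apply Finset.sum_congr rfl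
  intro x _
  rw [Finset.card_filter]

lemma exists_code {n d : ℕ} (X : Finset (Fin n → Bool)) :
    ∃ C ⊆ X, IsCode d C ∧ X.card ^ 2 ≤ C.card * (2 * X.card + 8 * cp d X) := by
  obtain ⟨I, hIX, hI, hc⟩ := exists_indep_greedy (close (n := n) d) (fun x h => h.1 rfl) X
    (cp d X) (cp_eq_sum X).ge
  refine ⟨I, hIX, ?_, hc⟩
  intro x hx y hy hxy
  have := hI x hx y hy hxy
  by_contra hcon
  exact this (Or.inl ⟨hxy, by omega⟩)

/-- size of a Hamming ball (radius `d - 1`) -/
def vol (n d : ℕ) : ℕ := (univ.filter fun x : Fin n → Bool => wt x < d).card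

lemma cp_univ_le (n d : ℕ) : cp d (univ : Finset (Fin n → Bool)) ≤ 2 ^ n * vol n d := by
  rw [cp_eq_sum]
  have h1 : ∀ x : Fin n → Bool, (univ.filter fun y => close d x y).card ≤ vol n d := by
    intro x
    unfold vol
    apply Finset.card_le_card_of_injOn (fun y => xw x y)
    · intro y hy
      have hy' := (Finset.mem_filter.mp (Finset.mem_coe.mp hy)).2
      rw [Finset.mem_coe, Finset.mem_filter]
      exact ⟨Finset.mem_univ _, by rw [wt_xw]; exact hy'.2⟩
    · intro y _ z _ hyz
      funext i
      have := congrFun hyz i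
      simp only [xw] at this
      revert this
      cases x i <;> cases y i <;> cases z i <;> simp
  calc ∑ x : Fin n → Bool, (univ.filter fun y => close d x y).card
      ≤ ∑ _x : Fin n → Bool, vol n d := Finset.sum_le_sum (fun x _ => h1 x)
    _ = 2 ^ n * vol n d := by simp

lemma sum_cp_le {n d K : ℕ} :
    ∑ X ∈ (univ : Finset (Fin n → Bool)).powersetCard K, cp d X ≤
      cp d (univ : Finset (Fin n → Bool)) * (2 ^ n - 2).choose (K - 2) := by
  classical
  have h1 : ∀ X ∈ (univ : Finset (Fin n → Bool)).powersetCard K, cp d X =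
      ∑ p ∈ ((univ : Finset (Fin n → Bool)) ×ˢ univ).filter (fun p => close d p.1 p.2),
        if p.1 ∈ X ∧ p.2 ∈ X then 1 else 0 := by
    intro X _
    unfold cp
    rw [← Finset.card_filter]
    congr 1
    ext p
    simp only [Finset.mem_filter, Finset.mem_product, Finset.mem_univ, true_and]
    tauto
  rw [Finset.sum_congr rfl h1, Finset.sum_comm]
  unfold cp
  rw [← smul_eq_mul]
  apply Finset.sum_le_card_nsmul
  intro p hp
  have hp' := (Finset.mem_filter.mp hp).2
  rw [← Finset.card_filter]
  have h2 := card_supersets_le (V := Fin n → Bool) {({p.1, p.2} : Finset (Fin n → Bool))} 2 K (by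
    intro I hI
    rw [Finset.mem_singleton] at hI
    rw [hI, Finset.card_pair hp'.1])
  rw [Finset.card_singleton, one_mul] at h2
  have h3 : Fintype.card (Fin n → Bool) = 2 ^ n := by simp
  rw [h3] at h2
  refine le_trans (Finset.card_le_card ?_) h2
  intro X hX
  rw [Finset.mem_filter] at hX ⊢
  refine ⟨hX.1, {p.1, p.2}, Finset.mem_singleton_self _, ?_⟩
  intro z hz
  rw [Finset.mem_insert, Finset.mem_singleton] at hz
  rcases hz with rfl | rfl
  · exact hX.2.1
  · exact hX.2.2

/-- Markov inequality for close pairs. -/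
lemma card_many_pairs {n d K : ℕ} (hK2 : 2 ≤ K) (hKN : K ≤ 2 ^ n) {t : ℝ} (ht : 0 < t) :
    ((((univ : Finset (Fin n → Bool)).powersetCard K).filter fun X => t < (cp d X : ℝ)).card : ℝ) ≤
      ((K : ℝ) ^ 2 * vol n d / 2 ^ n / t) * ((2 ^ n).choose K : ℝ) := by
  classical
  set B := (((univ : Finset (Fin n → Bool)).powersetCard K).filter fun X => t < (cp d X : ℝ))
  have h1 : (B.card : ℝ) * t ≤ ∑ X ∈ (univ : Finset (Fin n → Bool)).powersetCard K, (cp d X : ℝ) := by
    calc (B.card : ℝ) * t = ∑ _X ∈ B, t := by rw [Finset.sum_const, nsmul_eq_mul]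
      _ ≤ ∑ X ∈ B, (cp d X : ℝ) := by
          apply Finset.sum_le_sum
          intro X hX
          exact (Finset.mem_filter.mp hX).2.le
      _ ≤ _ := Finset.sum_le_sum_of_subset_of_nonneg (Finset.filter_subset _ _)
          (fun _ _ _ => Nat.cast_nonneg _)
  have h2 : (∑ X ∈ (univ : Finset (Fin n → Bool)).powersetCard K, (cp d X : ℝ)) ≤
      (2 ^ n * vol n d) * ((2 ^ n - 2).choose (K - 2) : ℝ) := by
    have h3 := (sum_cp_le (n := n) (d := d) (K := K)).trans
      (Nat.mul_le_mul_right _ (cp_univ_le n d))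
    exact_mod_cast h3
  have h4 := choose_ratio (2 ^ n) K 2 hK2 hKN (by positivity)
  have h5 : (B.card : ℝ) * t ≤ (2 ^ n * vol n d) * (((K : ℝ) / 2 ^ n) ^ 2 * ((2 ^ n).choose K : ℝ)) := by
    refine (h1.trans h2).trans ?_
    have h6 : ((2 ^ n - 2).choose (K - 2) : ℝ) ≤ ((K : ℝ) / 2 ^ n) ^ 2 * ((2 ^ n).choose K : ℝ) := by
      refine h4.trans (le_of_eq ?_)
      push_cast
      ring
    gcongr
  rw [← le_div_iff₀ ht] at h5
  refine h5.trans (le_of_eq ?_)
  field_simp

end Pool.Agent.Lib.MP_0430e4_lc.Rand
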