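import Pool.Agent.Lib.MP_0430e4_lc.Rand.Upper

/-!
The largest code inside a random set of words.
-/

set_option autoImplicit false

namespace Pool.Agent.Lib.MP_0430e4_lc.Rand

open Finset Filter Topology

lemma vol_le {δ : ℝ} (h0 : 0 < δ) (h1 : δ < 1 / 2) {n : ℕ} (hn : 0 < n) :
    (vol n ⌈δ * n⌉₊ : ℝ) ≤ Real.exp (Real.binEntropy δ * n) := by
  have hn' : (0 : ℝ) < n := by exact_mod_cast hn
  have hpos : 0 < δ * n := by positivity
  have hd : 0 < ⌈δ * n⌉₊ := Nat.ceil_pos.mpr hpos
  obtain ⟨m, hm⟩ : ∃ m, ⌈δ * n⌉₊ = m + 1 := ⟨⌈δ * n⌉₊ - 1, by omega⟩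
  have hm2 : (m : ℝ) ≤ δ * n := by
    have h2 := Nat.ceil_lt_add_one hpos.le
    rw [hm] at h2
    push_cast at h2
    linarith
  have h3 := Tensor.card_small_le (n := n) (m := m) h0 h1.le hm2
  rw [hm]
  have h4 : vol n (m + 1) = (univ.filter fun T : Finset (Fin n) => T.card < m + 1).card := by
    unfold vol
    apply Finset.card_bij (fun x _ => univ.filter fun i => x i = true)
    · intro x hx
      rw [Finset.mem_filter] at hx ⊢
      exact ⟨Finset.mem_univ _, hx.2⟩
    · intro x _ y _ hxy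
      funext i
      have := congrArg (fun T : Finset (Fin n) => i ∈ T) hxy
      simp only [Finset.mem_filter, Finset.mem_univ, true_and, eq_iff_iff] at this
      cases hx : x i <;> cases hy : y i <;> simp_all
    · intro T hT
      rw [Finset.mem_filter] at hT
      refine ⟨fun i => decide (i ∈ T), ?_, ?_⟩
      · rw [Finset.mem_filter]
        refine ⟨Finset.mem_univ _, ?_⟩
        have : wt (fun i => decide (i ∈ T)) = T.card := by
          unfold wt
          congr 1
          ext i
          simp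
        rw [this]
        exact hT.2
      · ext i
        simp
  rw [h4, mul_comm]
  exact h3

/-- `X` contains a code of size at least `exp (g n)` -/
def HasBig (δ g : ℝ) (n : ℕ) (X : Finset (Fin n → Bool)) : Prop :=
  ∃ C : Finset (Fin n → Bool), C ⊆ X ∧ IsCode ⌈δ * n⌉₊ C ∧ Real.exp (g * n) ≤ (C.card : ℝ)

noncomputable instance (δ g : ℝ) (n : ℕ) : DecidablePred (HasBig δ g n) := Classical.decPred _

/-- all codes in `X` have size at most `exp (g n)` -/
def AllSmall (δ g : ℝ) (n : ℕ) (X : Finset (Fin n → Bool)) : Prop :=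
  ∀ C : Finset (Fin n → Bool), C ⊆ X → IsCode ⌈δ * n⌉₊ C → (C.card : ℝ) ≤ Real.exp (g * n)

noncomputable instance (δ g : ℝ) (n : ℕ) : DecidablePred (AllSmall δ g n) := Classical.decPred _

theorem lower_bound {δ : ℝ} (h0 : 0 < δ) (h1 : δ < 1 / 2) {ρ : ℝ} (hρ0 : 0 < ρ)
    {ε : ℝ} (hε : 0 < ε) (K : ℕ → ℕ)
    (hK : ∀ n : ℕ, Real.exp (ρ * n) < (K n : ℝ) + 1) (hKN : ∀ n, K n ≤ 2 ^ n) :
    ∀ᶠ n : ℕ in atTop,
      ((((univ : Finset (Fin n → Bool)).powersetCard (K n)).filter fun X =>
        ¬ HasBig δ (min ρ (gn δ) - ε) n X).card : ℝ) ≤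
      Real.exp (-(ε / 2 * n)) * ((2 ^ n).choose (K n) : ℝ) := by
  have p1 := eventually_const_le_exp 4 hρ0
  have p2 := eventually_const_le_exp 20 (c := ε / 2) (by positivity)
  filter_upwards [p1, p2, eventually_gt_atTop 0] with n p1 p2 hn
  have hn0 : (0 : ℝ) < n := by exact_mod_cast hn
  set d := ⌈δ * n⌉₊ with hd
  set g := min ρ (gn δ) with hg
  have hKge : Real.exp (ρ * n) / 2 ≤ K n := by
    have := hK n
    linarith
  have hK2 : 2 ≤ K n := by
    have h3 : (2 : ℝ) ≤ K n := by linarith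
    exact_mod_cast h3
  have hKpos : (0 : ℝ) < K n := by
    have : 0 < K n := by omega
    exact_mod_cast this
  have h2n : (0 : ℝ) < 2 ^ n := by positivity
  have hVpos : 0 < vol n d := by
    unfold vol
    rw [Finset.card_pos]
    refine ⟨fun _ => false, ?_⟩
    rw [Finset.mem_filter]
    refine ⟨Finset.mem_univ _, ?_⟩
    have : wt (fun _ : Fin n => false) = 0 := by simp [wt]
    rw [this]
    exact Nat.ceil_pos.mpr (by positivity)
  have hVpos' : (0 : ℝ) < vol n d := by exact_mod_cast hVpos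
  have hV := vol_le h0 h1 hn
  rw [← hd] at hV
  set t : ℝ := Real.exp (ε / 2 * n) * ((K n : ℝ) ^ 2 * vol n d / 2 ^ n) with ht
  have ht0 : 0 < t := by rw [ht]; positivity
  have hmany := card_many_pairs (n := n) (d := d) hK2 (hKN n) ht0
  have hfrac : (K n : ℝ) ^ 2 * vol n d / 2 ^ n / t = Real.exp (-(ε / 2 * n)) := by
    rw [ht, Real.exp_neg]
    have := Real.exp_pos (ε / 2 * n)
    field_simp
  rw [hfrac] at hmany
  refine le_trans ?_ hmany
  have hsub : (((univ : Finset (Fin n → Bool)).powersetCard (K n)).filter fun X =>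
        ¬ HasBig δ (g - ε) n X) ⊆
      (((univ : Finset (Fin n → Bool)).powersetCard (K n)).filter fun X => t < (cp d X : ℝ)) := by
    intro X hX
    rw [Finset.mem_filter] at hX ⊢
    refine ⟨hX.1, ?_⟩
    by_contra hcon
    push Not at hcon
    apply hX.2
    obtain ⟨C, hCX, hC, hcard⟩ := exists_code (d := d) X
    refine ⟨C, hCX, hC, ?_⟩
    have hXK : X.card = K n := (Finset.mem_powersetCard.mp hX.1).2
    rw [hXK] at hcard
    have hcard' : (K n : ℝ) ^ 2 ≤ C.card * (2 * K n + 8 * cp d X) := by exact_mod_cast hcard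
    have h3 : (K n : ℝ) ^ 2 ≤ C.card * (2 * K n + 8 * t) := by
      refine hcard'.trans ?_
      gcongr
    -- divide by K^2
    have h4 : 1 ≤ C.card * (2 / K n + 8 * (Real.exp (ε / 2 * n) * (vol n d / 2 ^ n))) := by
      have e1 : (C.card : ℝ) * (2 / K n + 8 * (Real.exp (ε / 2 * n) * (vol n d / 2 ^ n))) =
          (C.card * (2 * K n + 8 * t)) / (K n : ℝ) ^ 2 := by
        rw [ht]
        field_simp
      rw [e1, le_div_iff₀ (by positivity), one_mul]
      exact h3
    have h5 : 2 / (K n : ℝ) ≤ 4 * Real.exp (-(g * n)) := by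
      rw [div_le_iff₀ hKpos]
      have e1 : Real.exp (-(g * n)) * Real.exp (ρ * n) ≥ 1 := by
        rw [← Real.exp_add]
        apply Real.one_le_exp
        have : g ≤ ρ := min_le_left _ _
        nlinarith
      have e2 : 4 * Real.exp (-(g * n)) * (Real.exp (ρ * n) / 2) ≤ 4 * Real.exp (-(g * n)) * K n := by
        gcongr
      linarith
    have h6 : 8 * (Real.exp (ε / 2 * n) * ((vol n d : ℝ) / 2 ^ n)) ≤
        8 * (Real.exp (ε / 2 * n) * Real.exp (-(g * n))) := by
      have e1 : (vol n d : ℝ) / 2 ^ n ≤ Real.exp (-(g * n)) := by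
        rw [div_le_iff₀ h2n, two_pow_exp, ← Real.exp_add]
        refine hV.trans ?_
        apply Real.exp_le_exp.mpr
        have : g ≤ gn δ := min_le_right _ _
        unfold gn at this
        nlinarith
      gcongr
    have h7 : (1 : ℝ) ≤ Real.exp (ε / 2 * n) := Real.one_le_exp (by positivity)
    have h8 : 1 ≤ (C.card : ℝ) * (12 * (Real.exp (ε / 2 * n) * Real.exp (-(g * n)))) := by
      refine h4.trans ?_
      have hp := Real.exp_pos (-(g * n))
      have : 4 * Real.exp (-(g * n)) ≤ 4 * (Real.exp (ε / 2 * n) * Real.exp (-(g * n))) := by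
        nlinarith
      gcongr
      linarith
    have h9 : Real.exp ((g - ε) * n) * (12 * (Real.exp (ε / 2 * n) * Real.exp (-(g * n)))) ≤ 1 := by
      have e1 : Real.exp ((g - ε) * n) * (12 * (Real.exp (ε / 2 * n) * Real.exp (-(g * n)))) =
          12 * Real.exp (-(ε / 2 * n)) := by
        rw [← Real.exp_add]
        rw [mul_left_comm, ← Real.exp_add]
        congr 2
        ring
      rw [e1, Real.exp_neg]
      have hp := Real.exp_pos (ε / 2 * n)
      rw [← div_eq_mul_inv, div_le_one hp]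
      linarith
    have h10 : 0 < 12 * (Real.exp (ε / 2 * n) * Real.exp (-(g * n))) := by positivity
    by_contra hlt
    push Not at hlt
    have h11 : (C.card : ℝ) * (12 * (Real.exp (ε / 2 * n) * Real.exp (-(g * n)))) <
        Real.exp ((g - ε) * n) * (12 * (Real.exp (ε / 2 * n) * Real.exp (-(g * n)))) :=
      mul_lt_mul_of_pos_right hlt h10
    linarith
  exact_mod_cast Finset.card_le_card hsub

/-- Main theorem in natural units. -/
theorem main {δ : ℝ} (h0 : 0 < δ) (h1 : δ < 1 / 2) {ρ : ℝ} (hρ0 : 0 < ρ)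
    (hρ : ρ ≤ (gn δ + mr δ) / 2) {ε : ℝ} (hε : 0 < ε) (K : ℕ → ℕ)
    (hK1 : ∀ n : ℕ, (K n : ℝ) ≤ Real.exp (ρ * n))
    (hK2 : ∀ n : ℕ, Real.exp (ρ * n) < (K n : ℝ) + 1) (hKN : ∀ n, K n ≤ 2 ^ n) :
    Tendsto (fun n : ℕ => ((((univ : Finset (Fin n → Bool)).powersetCard (K n)).filter fun X =>
        AllSmall δ (min ρ (gn δ) + ε) n X ∧ HasBig δ (min ρ (gn δ) - ε) n X).card : ℝ) /
      ((2 ^ n).choose (K n) : ℝ)) atTop (𝓝 1) := by
  have u := upper_bound h0 h1 hρ hε K hK1 hKN
  have l := lower_bound h0 h1 hρ0 hε K hK2 hKN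
  have hlim1 : Tendsto (fun n : ℕ => Real.exp (-(n : ℝ))) atTop (𝓝 0) :=
    Real.tendsto_exp_neg_atTop_nhds_zero.comp tendsto_natCast_atTop_atTop
  have hlim2 : Tendsto (fun n : ℕ => Real.exp (-(ε / 2 * (n : ℝ)))) atTop (𝓝 0) :=
    Real.tendsto_exp_neg_atTop_nhds_zero.comp
      (tendsto_natCast_atTop_atTop.const_mul_atTop (by positivity))
  have hlim : Tendsto (fun n : ℕ => 1 - (Real.exp (-(n : ℝ)) + Real.exp (-(ε / 2 * (n : ℝ)))))
      atTop (𝓝 1) := by
    have := (tendsto_const_nhds (x := (1 : ℝ))).sub (hlim1.add hlim2)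
    simpa using this
  apply tendsto_of_tendsto_of_tendsto_of_le_of_le' hlim tendsto_const_nhds
  · filter_upwards [u, l] with n u l
    have hchoose : (0 : ℝ) < ((2 ^ n).choose (K n) : ℝ) := by
      exact_mod_cast Nat.choose_pos (hKN n)
    rw [le_div_iff₀ hchoose]
    set S := (univ : Finset (Fin n → Bool)).powersetCard (K n) with hS
    set G := S.filter fun X =>
        AllSmall δ (min ρ (gn δ) + ε) n X ∧ HasBig δ (min ρ (gn δ) - ε) n X with hG
    set B1 := S.filter fun X =>
        ∃ I ∈ indep (close (n := n) ⌈δ * n⌉₊) univ (mm δ ε n), I ⊆ X with hB1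
    set B2 := S.filter fun X => ¬ HasBig δ (min ρ (gn δ) - ε) n X with hB2
    have hcover : S ⊆ G ∪ (B1 ∪ B2) := by
      intro X hX
      by_cases hX2 : HasBig δ (min ρ (gn δ) - ε) n X
      swap
      · rw [Finset.mem_union, Finset.mem_union]
        exact Or.inr (Or.inr (Finset.mem_filter.mpr ⟨hX, hX2⟩))
      by_cases hX1 : AllSmall δ (min ρ (gn δ) + ε) n X
      · rw [Finset.mem_union]
        exact Or.inl (Finset.mem_filter.mpr ⟨hX, hX1, hX2⟩)
      unfold AllSmall at hX1
      push Not at hX1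
      obtain ⟨C, hCX, hC, hbig⟩ := hX1
      have hXK : X.card = K n := (Finset.mem_powersetCard.mp hX).2
      have hCK : (C.card : ℝ) ≤ Real.exp (ρ * n) := by
        refine le_trans ?_ (hK1 n)
        rw [← hXK]
        exact_mod_cast Finset.card_le_card hCX
      have hn0 : (0 : ℝ) ≤ n := Nat.cast_nonneg n
      have hgρ : min ρ (gn δ) = gn δ := by
        rcases min_choice ρ (gn δ) with h | h
        · exfalso
          rw [h] at hbig
          have : Real.exp (ρ * n) ≤ Real.exp ((ρ + ε) * n) := by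
            apply Real.exp_le_exp.mpr
            nlinarith
          linarith
        · exact h
      rw [hgρ] at hbig
      have hmC : mm δ ε n ≤ C.card := by
        unfold mm
        have : ⌊Real.exp ((gn δ + ε) * n)⌋₊ < C.card := by
          rw [Nat.floor_lt (Real.exp_pos _).le]
          exact hbig
        omega
      obtain ⟨I, hIC, hIm⟩ := Finset.exists_subset_card_eq hmC
      rw [Finset.mem_union, Finset.mem_union]
      refine Or.inr (Or.inl (Finset.mem_filter.mpr ⟨hX, I, ?_, hIC.trans hCX⟩))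
      rw [mem_indep_close]
      exact ⟨Finset.subset_univ _, hIm, fun x hx y hy hxy => hC x (hIC hx) y (hIC hy) hxy⟩
    have hcard : (S.card : ℝ) ≤ G.card + (B1.card + B2.card) := by
      have h3 := Finset.card_le_card hcover
      have h4 := Finset.card_union_le G (B1 ∪ B2)
      have h5 := Finset.card_union_le B1 B2
      have h6 : S.card ≤ G.card + (B1.card + B2.card) := by omega
      exact_mod_cast h6
    have hScard : (S.card : ℝ) = ((2 ^ n).choose (K n) : ℝ) := by
      rw [hS, Finset.card_powersetCard]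
      simp
    rw [hScard] at hcard
    have e : (1 - (Real.exp (-(n : ℝ)) + Real.exp (-(ε / 2 * (n : ℝ))))) *
        ((2 ^ n).choose (K n) : ℝ) = ((2 ^ n).choose (K n) : ℝ) -
        (Real.exp (-(n : ℝ)) * ((2 ^ n).choose (K n) : ℝ) +
          Real.exp (-(ε / 2 * (n : ℝ))) * ((2 ^ n).choose (K n) : ℝ)) := by ring
    rw [e]
    linarith
  · filter_upwards with n
    have hchoose : (0 : ℝ) < ((2 ^ n).choose (K n) : ℝ) := by
      exact_mod_cast Nat.choose_pos (hKN n)
    rw [div_le_one hchoose]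
    have h3 : ((univ : Finset (Fin n → Bool)).powersetCard (K n)).card = (2 ^ n).choose (K n) := by
      rw [Finset.card_powersetCard]
      simp
    rw [← h3]
    exact_mod_cast Finset.card_filter_le _ _

end Pool.Agent.Lib.MP_0430e4_lc.Rand
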