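import Pool.Agent.Lib.MP_0430e4_lc.Rand.Kraw

/-!
Supersaturation: large sets of words contain at least half as many pairs at distance `i`
as random sets of the same size.
-/

set_option autoImplicit false

namespace Pool.Agent.Lib.MP_0430e4_lc.Rand

open Finset
open Pool.Agent.Lib.MP_0430e4_lc.Tensor

variable {n : ℕ}

/-- sum of two words -/
def xw (x y : Fin n → Bool) : Fin n → Bool := fun i => xor (x i) (y i)

lemma chi_xw (x x' y : Fin n → Bool) : chi (xw x x') y = chi x y * chi x' y := chi_xor x x' y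

lemma wt_xw (x y : Fin n → Bool) : wt (xw x y) = hammingDist x y := by
  rw [hammingDist_eq_card_xor]
  rfl

lemma xw_eq_zero {x y : Fin n → Bool} : xw x y = (fun _ => false) ↔ x = y := by
  constructor
  · intro h
    funext i
    have := congrFun h i
    unfold xw at this
    revert this
    cases x i <;> cases y i <;> simp
  · rintro rfl
    funext i
    simp [xw]

lemma sum_chi_eq (x : Fin n → Bool) :
    ∑ z, chi x z = if x = (fun _ => false) then (2 : ℝ) ^ n else 0 := by
  rw [sum_chi]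
  split_ifs with h
  · subst h
    simp
  · obtain ⟨i, hi⟩ : ∃ i, x i = true := by
      by_contra hcon
      push Not at hcon
      apply h
      funext i
      simpa using hcon i
    exact Finset.prod_eq_zero (Finset.mem_univ i) (by simp [hi])

lemma orth (x w : Fin n → Bool) :
    ∑ z, chi x z * chi w z = if x = w then (2 : ℝ) ^ n else 0 := by
  have h1 : ∀ z, chi x z * chi w z = chi (xw x w) z := fun z => (chi_xw x w z).symm
  rw [Finset.sum_congr rfl (fun z _ => h1 z), sum_chi_eq]
  simp only [xw_eq_zero]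

/-- number of ordered pairs in `A` at distance exactly `i` -/
def pairs (A : Finset (Fin n → Bool)) (i : ℕ) : ℕ :=
  ((A ×ˢ A).filter fun p => hammingDist p.1 p.2 = i).card

/-- Fourier coefficient -/
noncomputable def ft (A : Finset (Fin n → Bool)) (z : Fin n → Bool) : ℝ := ∑ x ∈ A, chi x z

lemma inner_sum (x y : Fin n → Bool) (i : ℕ) :
    ∑ z, chi x z * chi y z * kc n i (wt z) =
      if hammingDist x y = i then (2 : ℝ) ^ n else 0 := by
  have h1 : ∀ z, chi x z * chi y z * kc n i (wt z) =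
      ∑ w : Fin n → Bool, (if wt w = i then chi (xw x y) z * chi w z else 0) := by
    intro z
    rw [← sum_chi_wt, Finset.mul_sum]
    apply Finset.sum_congr rfl
    intro w _
    rw [chi_xw]
    split_ifs
    · ring
    · ring
  rw [Finset.sum_congr rfl (fun z _ => h1 z), Finset.sum_comm]
  have h2 : ∀ w : Fin n → Bool, ∑ z, (if wt w = i then chi (xw x y) z * chi w z else 0) =
      if xw x y = w then (if wt w = i then (2 : ℝ) ^ n else 0) else 0 := by
    intro w
    by_cases h : wt w = i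
    · simp only [h, if_true]
      exact orth _ _
    · simp [h]
  rw [Finset.sum_congr rfl (fun w _ => h2 w), Finset.sum_ite_eq]
  simp [wt_xw]

lemma pairs_formula (A : Finset (Fin n → Bool)) (i : ℕ) :
    ∑ z, ft A z ^ 2 * kc n i (wt z) = 2 ^ n * (pairs A i : ℝ) := by
  have h1 : ∀ z, ft A z ^ 2 * kc n i (wt z) =
      ∑ p ∈ A ×ˢ A, chi p.1 z * chi p.2 z * kc n i (wt z) := by
    intro z
    rw [pow_two, ft, Finset.sum_mul_sum, ← Finset.sum_product', Finset.sum_mul]
  rw [Finset.sum_congr rfl (fun z _ => h1 z), Finset.sum_comm]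
  rw [Finset.sum_congr rfl (fun p _ => inner_sum p.1 p.2 i)]
  rw [← Finset.sum_filter, Finset.sum_const, nsmul_eq_mul, mul_comm]
  rfl

lemma pairs_zero (A : Finset (Fin n → Bool)) : pairs A 0 = A.card := by
  unfold pairs
  have h : (A ×ˢ A).filter (fun p => hammingDist p.1 p.2 = 0) = A.image (fun x => (x, x)) := by
    ext ⟨a, b⟩
    simp only [mem_filter, mem_product, hammingDist_eq_zero, mem_image, Prod.mk.injEq]
    constructor
    · rintro ⟨⟨h1, h2⟩, h3⟩
      exact ⟨a, h1, rfl, h3⟩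
    · rintro ⟨c, hc, rfl, rfl⟩
      exact ⟨⟨hc, hc⟩, rfl⟩
  rw [h, Finset.card_image_of_injective]
  intro a b hab
  exact congrArg Prod.fst hab

lemma sum_ft_sq (A : Finset (Fin n → Bool)) : ∑ z, ft A z ^ 2 = 2 ^ n * (A.card : ℝ) := by
  have h := pairs_formula A 0
  simp only [kc_zero, mul_one, pairs_zero] at h
  exact h

lemma pairs_ge (A : Finset (Fin n → Bool)) {i : ℕ} {τ : ℝ} (hτ0 : 0 ≤ τ)
    (hτ : ∀ j, j ≤ n → -τ ≤ kc n i j) :
    (A.card : ℝ) ^ 2 * n.choose i ≤ 2 ^ n * ((pairs A i : ℝ) + τ * A.card) := by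
  have h1 := pairs_formula A i
  have h2 := sum_ft_sq A
  have h3 : (A.card : ℝ) ^ 2 * n.choose i - τ * ∑ z, ft A z ^ 2 ≤
      ∑ z, ft A z ^ 2 * kc n i (wt z) := by
    rw [Finset.mul_sum, sub_le_iff_le_add, ← Finset.sum_add_distrib]
    have h4 : ∀ z, 0 ≤ ft A z ^ 2 * kc n i (wt z) + τ * ft A z ^ 2 := by
      intro z
      have := hτ (wt z) (wt_le z)
      have h5 : 0 ≤ ft A z ^ 2 := sq_nonneg _
      nlinarith
    have h6 := Finset.single_le_sum (fun z _ => h4 z) (Finset.mem_univ (fun _ : Fin n => false))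
    refine le_trans ?_ h6
    have h0 : wt (fun _ : Fin n => false) = 0 := by simp [wt]
    have hf : ft A (fun _ => false) = A.card := by
      unfold ft
      simp [chi_zero_right]
    rw [h0, kc_at_zero, hf]
    have : 0 ≤ τ * (A.card : ℝ) ^ 2 := by positivity
    linarith
  rw [h1, h2] at h3
  nlinarith

lemma parseval_kc (i j : ℕ) :
    (n.choose j : ℝ) * kc n i j ^ 2 ≤ 2 ^ n * (n.choose i : ℝ) := by
  classical
  let A : Finset (Fin n → Bool) := univ.filter fun x => wt x = i
  have hft : ∀ z, ft A z = kc n i (wt z) := by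
    intro z
    rw [← sum_chi_wt]
    unfold ft
    rw [Finset.sum_filter]
  have h1 := sum_ft_sq A
  rw [card_wt] at h1
  rw [← h1, ← card_wt n j]
  have h2 : ∑ z ∈ univ.filter (fun z : Fin n → Bool => wt z = j), ft A z ^ 2 ≤
      ∑ z, ft A z ^ 2 :=
    Finset.sum_le_sum_of_subset_of_nonneg (Finset.filter_subset _ _) (fun _ _ _ => sq_nonneg _)
  refine le_trans (le_of_eq ?_) h2
  rw [Finset.sum_congr rfl (g := fun _ => kc n i j ^ 2)]
  · rw [Finset.sum_const, nsmul_eq_mul]
  · intro z hz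
    rw [Finset.mem_filter] at hz
    rw [hft, hz.2]

lemma choose_mono_half {a b : ℕ} (hab : a ≤ b) (hb : 2 * b ≤ n) : n.choose a ≤ n.choose b := by
  induction b, hab using Nat.le_induction with
  | base => exact le_rfl
  | succ b hab ih =>
    exact (ih (by omega)).trans (Nat.choose_le_succ_of_lt_half_left (by omega))

lemma choose_le_mid {j0 j : ℕ} (h1 : j0 ≤ j) (h2 : j + j0 ≤ n) : n.choose j0 ≤ n.choose j := by
  by_cases h : 2 * j ≤ n
  · exact choose_mono_half h1 h
  · rw [← Nat.choose_symm (show j ≤ n by omega)]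
    exact choose_mono_half (by omega) (by omega)

lemma kc_ge {i j0 : ℕ} (hi : Even i) (hi2 : 2 * i ≤ n + 1) (hj0 : 2 * j0 ≤ n)
    (hcond : 4 * ((i : ℝ) * (n + 1 - i)) ≤ ((n : ℝ) - 2 * j0) ^ 2) (j : ℕ) (hj : j ≤ n) :
    -Real.sqrt (2 ^ n * (n.choose i : ℝ) / n.choose j0) ≤ kc n i j := by
  have hs := Real.sqrt_nonneg (2 ^ n * (n.choose i : ℝ) / n.choose j0)
  have hpos : ∀ j', j' ≤ j0 → 0 ≤ kc n i j' := by
    intro j' hj'
    apply kc_nonneg (by omega) hi2
    refine hcond.trans ?_
    have h1 : (j' : ℝ) ≤ j0 := by exact_mod_cast hj'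
    have h2 : (2 : ℝ) * j0 ≤ n := by exact_mod_cast hj0
    nlinarith
  by_cases h1 : j ≤ j0
  · linarith [hpos j h1]
  by_cases h2 : n - j ≤ j0
  · have := hpos (n - j) h2
    rw [kc_symm hj hi] at this
    linarith
  have h3 : n.choose j0 ≤ n.choose j := choose_le_mid (by omega) (by omega)
  have h4 := parseval_kc (n := n) i j
  have hc0 : (0 : ℝ) < n.choose j0 := by
    exact_mod_cast Nat.choose_pos (show j0 ≤ n by omega)
  have h3' : (n.choose j0 : ℝ) ≤ n.choose j := by exact_mod_cast h3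
  have h5 : kc n i j ^ 2 ≤ 2 ^ n * (n.choose i : ℝ) / n.choose j0 := by
    rw [le_div_iff₀ hc0]
    nlinarith [sq_nonneg (kc n i j)]
  have h6 := Real.abs_le_sqrt h5
  linarith [neg_abs_le (kc n i j)]

end Pool.Agent.Lib.MP_0430e4_lc.Rand
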