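import Pool.Agent.Lib.MP_0430e4_lc.Rand.Asym

/-!
Most sets of words of rate at most half of GV + MRRW contain no code beating the GV rate.
-/

set_option autoImplicit false

namespace Pool.Agent.Lib.MP_0430e4_lc.Rand

open Finset Filter Topology

/-- Gilbert-Varshamov exponent in natural units -/
noncomputable def gn (δ : ℝ) : ℝ := Real.log 2 - Real.binEntropy δ

/-- target size -/
noncomputable def mm (δ ε : ℝ) (n : ℕ) : ℕ := ⌊Real.exp ((gn δ + ε) * n)⌋₊ + 1

lemma gn_nonneg (δ : ℝ) : 0 ≤ gn δ := by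
  unfold gn
  linarith [Real.binEntropy_le_log_two (p := δ)]

lemma mr_le (δ : ℝ) : mr δ ≤ Real.log 2 := Real.binEntropy_le_log_two

lemma two_pow_exp (n : ℕ) : (2 : ℝ) ^ n = Real.exp (Real.log 2 * n) := by
  rw [mul_comm, Real.exp_nat_mul, Real.exp_log (by norm_num)]

lemma eventually_const_le_exp (A : ℝ) {c : ℝ} (hc : 0 < c) :
    ∀ᶠ n : ℕ in atTop, A ≤ Real.exp (c * n) := by
  have h : Tendsto (fun n : ℕ => Real.exp (c * n)) atTop atTop :=
    Real.tendsto_exp_atTop.comp (tendsto_natCast_atTop_atTop.const_mul_atTop hc)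
  exact h.eventually_ge_atTop A

lemma eventually_lin_le_exp (A B : ℝ) {c : ℝ} (hc : 0 < c) :
    ∀ᶠ n : ℕ in atTop, A * n + B ≤ Real.exp (c * n) := by
  have h1 := eventually_const_le_exp (2 * |A| / c + |B|) (c := c / 2) (by positivity)
  filter_upwards [h1] with n h1
  have h2 : c / 2 * n + 1 ≤ Real.exp (c / 2 * n) := Real.add_one_le_exp _
  have e1 : Real.exp (c * n) = Real.exp (c / 2 * n) * Real.exp (c / 2 * n) := by
    rw [← Real.exp_add]
    congr 1
    ring
  rw [e1]
  have hn : (0 : ℝ) ≤ n := Nat.cast_nonneg n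
  have hA : A ≤ |A| := le_abs_self A
  have hB : B ≤ |B| := le_abs_self B
  have hA0 : 0 ≤ |A| := abs_nonneg A
  have hB0 : 0 ≤ |B| := abs_nonneg B
  have hq : 0 ≤ 2 * |A| / c := by positivity
  have hcn : 0 ≤ c / 2 * n := by positivity
  calc A * n + B ≤ |A| * n + |B| := by nlinarith
    _ = (2 * |A| / c) * (c / 2 * n) + |B| := by field_simp
    _ ≤ (2 * |A| / c + |B|) * (c / 2 * n + 1) := by nlinarith
    _ ≤ Real.exp (c / 2 * n) * Real.exp (c / 2 * n) := by gcongr

lemma final_exponent {n k m L ε A : ℝ} (hε : 0 < ε) (hn : 1 ≤ n) (hk1 : 1 ≤ k)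
    (hA : A = (2 + L + ε / 2) * (2 / ε) + 2) (hAk : A * k ≤ m) :
    k + (k * (L * n) + (m - k) * (-(ε / 2 * n))) ≤ -n := by
  have hn0 : (0 : ℝ) < n := by linarith
  have f2 : (2 + L + ε / 2) * k ≤ ε / 2 * m := by
    have h0 : A * k = (2 / ε) * ((2 + L + ε / 2) * k) + 2 * k := by rw [hA]; ring
    have f3 : (2 / ε) * ((2 + L + ε / 2) * k) ≤ m := by linarith
    have f4 : (2 + L + ε / 2) * k = (ε / 2) * ((2 / ε) * ((2 + L + ε / 2) * k)) := by
      field_simp
    rw [f4]
    gcongr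
  have f1 : k ≤ k * n := le_mul_of_one_le_right (by linarith) hn
  have f6 : n ≤ k * n := le_mul_of_one_le_left hn0.le hk1
  have f5 : n * ((2 + L + ε / 2) * k) ≤ n * (ε / 2 * m) := mul_le_mul_of_nonneg_left f2 hn0.le
  have e1 : n * ((2 + L + ε / 2) * k) = 2 * (k * n) + k * (L * n) + k * (ε / 2 * n) := by ring
  have e2 : (m - k) * (-(ε / 2 * n)) = -(n * (ε / 2 * m)) + k * (ε / 2 * n) := by ring
  rw [e2]
  rw [e1] at f5
  linarith

lemma final_estimate {n k m : ℕ} {L ε : ℝ} (hε : 0 < ε) (hL : 0 < L) (hn : (1 : ℝ) ≤ n)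
    (hk1 : (1 : ℝ) ≤ k) (hkm : k ≤ m) (hAk : ((2 + L + ε / 2) * (2 / ε) + 2) * (k : ℝ) ≤ m)
    (hL2 : L = Real.log 2) :
    ((k : ℝ) + 1) * ((((2 ^ n : ℕ) : ℝ)) ^ k * Real.exp (-(ε / 2 * n)) ^ (m - k)) ≤
      Real.exp (-(n : ℝ)) := by
  have e1 : (k : ℝ) + 1 ≤ Real.exp k := Real.add_one_le_exp _
  have h2nc : ((2 ^ n : ℕ) : ℝ) = 2 ^ n := by push_cast; rfl
  have e2 : (((2 ^ n : ℕ) : ℝ)) ^ k = Real.exp (k * (L * n)) := by
    rw [h2nc, two_pow_exp, ← Real.exp_nat_mul, hL2]
  have e3 : Real.exp (-(ε / 2 * n)) ^ (m - k) = Real.exp (((m : ℝ) - k) * (-(ε / 2 * n))) := by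
    rw [← Real.exp_nat_mul, Nat.cast_sub hkm]
  rw [e2, e3, ← Real.exp_add]
  calc ((k : ℝ) + 1) * Real.exp (k * (L * n) + ((m : ℝ) - k) * (-(ε / 2 * n)))
      ≤ Real.exp k * Real.exp (k * (L * n) + ((m : ℝ) - k) * (-(ε / 2 * n))) := by gcongr
    _ = Real.exp (k + (k * (L * n) + ((m : ℝ) - k) * (-(ε / 2 * n)))) := by
        rw [← Real.exp_add]
    _ ≤ Real.exp (-(n : ℝ)) := by
        apply Real.exp_le_exp.mpr
        exact final_exponent hε hn hk1 rfl hAk

theorem upper_bound {δ : ℝ} (h0 : 0 < δ) (h1 : δ < 1 / 2) {ρ : ℝ}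
    (hρ : ρ ≤ (gn δ + mr δ) / 2) {ε : ℝ} (hε : 0 < ε) (K : ℕ → ℕ)
    (hK : ∀ n : ℕ, (K n : ℝ) ≤ Real.exp (ρ * n)) (hKN : ∀ n, K n ≤ 2 ^ n) :
    ∀ᶠ n : ℕ in atTop,
      ((((univ : Finset (Fin n → Bool)).powersetCard (K n)).filter fun X =>
        ∃ I ∈ indep (close (n := n) ⌈δ * n⌉₊) univ (mm δ ε n), I ⊆ X).card : ℝ) ≤
      Real.exp (-(n : ℝ)) * ((2 ^ n).choose (K n) : ℝ) := by
  set L := Real.log 2 with hL
  have hL0 : 0 < L := Real.log_pos (by norm_num)
  set η := ε / 8 with hη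
  have hη0 : 0 < η := by positivity
  set A : ℝ := (2 + L + ε / 2) * (2 / ε) + 2 with hA
  have p1 := params h0 h1 hη0
  have p2 := eventually_const_le_exp (6 * Real.exp 1) (c := ε / 2 - η) (by rw [hη]; linarith)
  have p3 := eventually_const_le_exp A (c := ε - 2 * η) (by rw [hη]; linarith)
  have p4 := eventually_lin_le_exp (2 * L) 1 hη0
  filter_upwards [p1, p2, p3, p4, eventually_ge_atTop 1] with n p1 p2 p3 p4 hn1
  obtain ⟨j0, q1, q2, q3, q4, q5, q6, q7, q8, q9⟩ := p1
  have hn : (1 : ℝ) ≤ n := by exact_mod_cast hn1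
  have hn0 : (0 : ℝ) < n := by linarith
  set d := ⌈δ * n⌉₊ with hd
  set i := ii δ n with hi
  set a : ℝ := (n.choose i : ℝ) with ha
  set b : ℝ := (n.choose j0 : ℝ) with hb
  have ha0 : 0 < a := by rw [ha]; exact_mod_cast Nat.choose_pos q8
  have hb0 : 0 < b := by rw [hb]; exact_mod_cast Nat.choose_pos q9
  have hgn := gn_nonneg δ
  have hmr := mr_le δ
  have h2n : (0 : ℝ) < 2 ^ n := by positivity
  set m := mm δ ε n with hm
  -- the trivial case
  by_cases hmK : K n < m
  · have hempty : (((univ : Finset (Fin n → Bool)).powersetCard (K n)).filter fun X =>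
        ∃ I ∈ indep (close (n := n) d) univ m, I ⊆ X) = ∅ := by
      rw [Finset.filter_eq_empty_iff]
      rintro X hX ⟨I, hI, hIX⟩
      rw [mem_indep_close] at hI
      rw [Finset.mem_powersetCard] at hX
      have := Finset.card_le_card hIX
      omega
    rw [hempty]
    simp only [Finset.card_empty, Nat.cast_zero]
    positivity
  push Not at hmK
  have hm0 : 0 < m := by rw [hm]; unfold mm; omega
  have hK0 : 0 < K n := by omega
  -- R
  set r0 : ℝ := 2 * 2 ^ n * Real.sqrt (2 ^ n * a / b) / a with hr0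
  set R : ℕ := ⌈r0⌉₊ with hR
  have hr0pos : 0 < r0 := by rw [hr0]; positivity
  have hRr0 : r0 ≤ R := Nat.le_ceil _
  have hRcond : 2 * 2 ^ n * Real.sqrt (2 ^ n * a / b) ≤ R * a := by
    rw [hr0, div_le_iff₀ ha0] at hRr0
    exact hRr0
  have hR1 : (1 : ℝ) ≤ R := by
    have : 0 < R := Nat.ceil_pos.mpr hr0pos
    exact_mod_cast this
  have hr0le : r0 ≤ 2 * Real.exp ((L + (gn δ - mr δ) / 2 + η) * n) := by
    have e1 : Real.sqrt (2 ^ n * a / b) = Real.sqrt (2 ^ n / (a * b)) * a := by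
      rw [show 2 ^ n * a / b = (2 ^ n / (a * b)) * a ^ 2 by field_simp,
        Real.sqrt_mul (by positivity), Real.sqrt_sq ha0.le]
    have e2 : 2 ^ n / (a * b) ≤ Real.exp ((gn δ - mr δ + 2 * η) * n) := by
      rw [div_le_iff₀ (by positivity)]
      calc (2 : ℝ) ^ n = Real.exp ((gn δ - mr δ + 2 * η) * n) *
            (Real.exp ((Real.binEntropy δ - η) * n) * Real.exp ((mr δ - η) * n)) := by
            rw [two_pow_exp, ← Real.exp_add, ← Real.exp_add]
            congr 1
            unfold gn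
            ring
        _ ≤ Real.exp ((gn δ - mr δ + 2 * η) * n) * (a * b) := by gcongr
    have e3 : Real.sqrt (2 ^ n / (a * b)) ≤ Real.exp ((gn δ - mr δ + 2 * η) * n / 2) := by
      rw [Real.exp_half]
      exact Real.sqrt_le_sqrt e2
    rw [hr0, e1]
    calc 2 * 2 ^ n * (Real.sqrt (2 ^ n / (a * b)) * a) / a
        = 2 * (2 ^ n * Real.sqrt (2 ^ n / (a * b))) := by field_simp
      _ ≤ 2 * (Real.exp (L * n) * Real.exp ((gn δ - mr δ + 2 * η) * n / 2)) := by
          rw [two_pow_exp n]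
          gcongr
          rw [← two_pow_exp n]
          exact e3
      _ = _ := by
          rw [← Real.exp_add]
          congr 2
          ring
  have hRle : (R : ℝ) ≤ 3 * Real.exp ((L + (gn δ - mr δ) / 2 + η) * n) := by
    have e1 : (R : ℝ) < r0 + 1 := Nat.ceil_lt_add_one hr0pos.le
    have e2 : (1 : ℝ) ≤ Real.exp ((L + (gn δ - mr δ) / 2 + η) * n) := by
      apply Real.one_le_exp
      apply mul_nonneg _ hn0.le
      linarith
    linarith
  -- k
  set k0 : ℝ := 2 * 2 ^ n * (L * n) / a with hk0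
  set k : ℕ := ⌈k0⌉₊ with hk
  have hk0pos : 0 < k0 := by rw [hk0]; positivity
  have hkk0 : k0 ≤ k := Nat.le_ceil _
  have hk1 : (1 : ℝ) ≤ k := by
    have : 0 < k := Nat.ceil_pos.mpr hk0pos
    exact_mod_cast this
  have hale : a ≤ 2 ^ n := by
    have : n.choose i ≤ 2 ^ n := by
      rw [← Nat.sum_range_choose n]
      exact Finset.single_le_sum (fun _ _ => Nat.zero_le _)
        (Finset.mem_range.mpr (by omega))
    rw [ha]
    exact_mod_cast this
  have hkcond : (1 - a / (2 * 2 ^ n)) ^ k * 2 ^ n ≤ R := by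
    have e1 : 0 ≤ 1 - a / (2 * 2 ^ n) := by
      rw [sub_nonneg, div_le_one (by positivity)]
      linarith
    have e2 : 1 - a / (2 * 2 ^ n) ≤ Real.exp (-(a / (2 * 2 ^ n))) := by
      have := Real.add_one_le_exp (-(a / (2 * 2 ^ n)))
      linarith
    have e3 : (1 - a / (2 * 2 ^ n)) ^ k ≤ Real.exp (-(L * n)) := by
      calc (1 - a / (2 * 2 ^ n)) ^ k ≤ Real.exp (-(a / (2 * 2 ^ n))) ^ k := by gcongr
        _ = Real.exp (k * (-(a / (2 * 2 ^ n)))) := by rw [Real.exp_nat_mul]
        _ ≤ Real.exp (-(L * n)) := by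
            apply Real.exp_le_exp.mpr
            have : L * n = k0 * (a / (2 * 2 ^ n)) := by
              rw [hk0]
              field_simp
            have h5 : k0 * (a / (2 * 2 ^ n)) ≤ k * (a / (2 * 2 ^ n)) := by gcongr
            linarith
    calc (1 - a / (2 * 2 ^ n)) ^ k * 2 ^ n ≤ Real.exp (-(L * n)) * 2 ^ n := by gcongr
      _ = 1 := by
          rw [two_pow_exp, ← Real.exp_add]
          simp [hL]
      _ ≤ R := hR1
  have hkle : (k : ℝ) ≤ Real.exp ((gn δ + 2 * η) * n) := by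
    have e1 : (k : ℝ) < k0 + 1 := Nat.ceil_lt_add_one hk0pos.le
    have e2 : k0 ≤ 2 * L * n * Real.exp ((gn δ + η) * n) := by
      rw [hk0, div_le_iff₀ ha0]
      calc 2 * 2 ^ n * (L * n) = 2 * L * n * Real.exp ((gn δ + η) * n) *
            Real.exp ((Real.binEntropy δ - η) * n) := by
            rw [two_pow_exp, mul_assoc (2 * L * n), ← Real.exp_add]
            have : (gn δ + η) * n + (Real.binEntropy δ - η) * n = L * n := by
              unfold gn
              ring
            rw [this]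
            ring
        _ ≤ 2 * L * n * Real.exp ((gn δ + η) * n) * a := by gcongr
    have e3 : (1 : ℝ) ≤ Real.exp ((gn δ + η) * n) := by
      apply Real.one_le_exp
      positivity
    have e4 : Real.exp ((gn δ + 2 * η) * n) = Real.exp (η * n) * Real.exp ((gn δ + η) * n) := by
      rw [← Real.exp_add]
      congr 1
      ring
    rw [e4]
    have e5 : (2 * L * n + 1) * Real.exp ((gn δ + η) * n) ≤
        Real.exp (η * n) * Real.exp ((gn δ + η) * n) := by gcongr
    nlinarith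
  -- m
  have hmge : Real.exp ((gn δ + ε) * n) ≤ m := by
    rw [hm]
    unfold mm
    push_cast
    exact (Nat.lt_floor_add_one _).le
  have hm0' : (0 : ℝ) < m := by exact_mod_cast hm0
  have hAk : A * k ≤ m := by
    calc A * k ≤ Real.exp ((ε - 2 * η) * n) * Real.exp ((gn δ + 2 * η) * n) := by
          have hA0 : 0 ≤ A := by rw [hA]; positivity
          gcongr
      _ = Real.exp ((gn δ + ε) * n) := by
          rw [← Real.exp_add]
          congr 1
          ring
      _ ≤ m := hmge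
  have h2km : 2 * k ≤ m := by
    have : (2 : ℝ) * k ≤ m := by
      refine le_trans ?_ hAk
      have : 2 ≤ A := by
        rw [hA]
        have : 0 ≤ (2 + L + ε / 2) * (2 / ε) := by positivity
        linarith
      gcongr
    exact_mod_cast this
  -- T and θ
  set T : ℝ := (K n : ℝ) / ((2 ^ n : ℕ) : ℝ) with hT
  have h2nc : ((2 ^ n : ℕ) : ℝ) = 2 ^ n := by push_cast; rfl
  have hT0 : 0 < T := by
    rw [hT]
    have : (0 : ℝ) < K n := by exact_mod_cast hK0
    positivity
  have hT1 : T ≤ 1 := by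
    rw [hT, div_le_one (by positivity)]
    exact_mod_cast hKN n
  have hTle : T ≤ Real.exp ((ρ - L) * n) := by
    rw [hT, h2nc, div_le_iff₀ h2n, two_pow_exp, ← Real.exp_add]
    refine (hK n).trans (le_of_eq ?_)
    congr 1
    rw [← hL]
    ring
  set θ : ℝ := Real.exp (-(ε / 2 * n)) with hθ
  have hθ1 : θ ≤ 1 := by
    rw [hθ]
    apply Real.exp_le_one_iff.mpr
    have : 0 ≤ ε / 2 * n := by positivity
    linarith
  have hθcond : 2 * Real.exp 1 * R * T / m ≤ θ := by
    rw [div_le_iff₀ hm0']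
    have e1 : (R : ℝ) * T ≤ 3 * Real.exp ((gn δ + η) * n) := by
      calc (R : ℝ) * T ≤ (3 * Real.exp ((L + (gn δ - mr δ) / 2 + η) * n)) *
            Real.exp ((ρ - L) * n) := by gcongr
        _ = 3 * Real.exp ((L + (gn δ - mr δ) / 2 + η) * n + (ρ - L) * n) := by
            rw [mul_assoc, ← Real.exp_add]
        _ ≤ 3 * Real.exp ((gn δ + η) * n) := by
            gcongr
            have : (L + (gn δ - mr δ) / 2 + η) * n + (ρ - L) * n =
              (ρ + (gn δ - mr δ) / 2 + η) * n := by ring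
            rw [this]
            gcongr
            linarith
    calc 2 * Real.exp 1 * R * T = 2 * Real.exp 1 * (R * T) := by ring
      _ ≤ 2 * Real.exp 1 * (3 * Real.exp ((gn δ + η) * n)) := by gcongr
      _ = 6 * Real.exp 1 * Real.exp ((gn δ + η) * n) := by ring
      _ ≤ Real.exp ((ε / 2 - η) * n) * Real.exp ((gn δ + η) * n) := by gcongr
      _ = θ * Real.exp ((gn δ + ε) * n) := by
          rw [hθ, ← Real.exp_add, ← Real.exp_add]
          congr 1
          ring
      _ ≤ θ * m := by gcongr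
  -- conclusion
  have hcount := count_codes (n := n) (d := d) q1 q2 (ii_even δ n) q3 q4 q5 (R := R) (k := k)
    hRcond hkcond m
  have hsup := card_supersets_le (V := Fin n → Bool) (indep (close (n := n) d) univ m) m (K n)
    (fun I hI => (mem_indep_close.mp hI).2.1)
  have hcardV : Fintype.card (Fin n → Bool) = 2 ^ n := by simp
  rw [hcardV] at hsup
  have hratio := choose_ratio (2 ^ n) (K n) m hmK (hKN n) (by positivity)
  rw [← hT] at hratio
  have hbb := bb_le (R := R) (N := 2 ^ n) (k := k) (m := m) hT0 hT1 h2km hm0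
    (Nat.one_le_two_pow) hθcond hθ1
  have hchain : ((((univ : Finset (Fin n → Bool)).powersetCard (K n)).filter fun X =>
        ∃ I ∈ indep (close (n := n) d) univ m, I ⊆ X).card : ℝ) ≤
      ((k + 1) * ((((2 ^ n : ℕ) : ℝ)) ^ k * θ ^ (m - k))) * ((2 ^ n).choose (K n) : ℝ) := by
    calc ((((univ : Finset (Fin n → Bool)).powersetCard (K n)).filter fun X =>
        ∃ I ∈ indep (close (n := n) d) univ m, I ⊆ X).card : ℝ)
        ≤ ((indep (close (n := n) d) univ m).card : ℝ) * ((2 ^ n - m).choose (K n - m) : ℝ) := by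
          exact_mod_cast hsup
      _ ≤ (bb R (2 ^ n) k m : ℝ) * (T ^ m * ((2 ^ n).choose (K n) : ℝ)) := by
          have : ((indep (close (n := n) d) univ m).card : ℝ) ≤ (bb R (2 ^ n) k m : ℝ) := by
            exact_mod_cast hcount
          gcongr
      _ = ((bb R (2 ^ n) k m : ℝ) * T ^ m) * ((2 ^ n).choose (K n) : ℝ) := by ring
      _ ≤ _ := by gcongr
  refine hchain.trans ?_
  have hfin : ((k : ℝ) + 1) * ((((2 ^ n : ℕ) : ℝ)) ^ k * θ ^ (m - k)) ≤ Real.exp (-(n : ℝ)) :=
    final_estimate hε hL0 hn hk1 (by omega) hAk rfl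
  gcongr

end Pool.Agent.Lib.MP_0430e4_lc.Rand
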